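import Pool.Agent.H696R2.NH.Tools

set_option autoImplicit false

namespace Pool.Agent.H696R2.NH

open Pool.Agent.Helper223 Nat.Partrec

/-- Compactness of Cantor space for a monotone property of finite sequences. -/
theorem compact (P : List Bool → Prop) (hmono : ∀ τ τ', τ <+: τ' → P τ → P τ')
    (h : ∀ X : ℕ → Bool, ∃ m, P (pre X m)) : ∃ u, ∀ τ : List Bool, τ.length = u → P τ := by
  have hopen : ∀ m, IsOpen {X : ℕ → Bool | P (pre X m)} := by
    intro m
    have hc : Continuous (fun (X : ℕ → Bool) (i : Fin m) => X i) := by fun_prop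
    have h2 : {X : ℕ → Bool | P (pre X m)} =
        (fun (X : ℕ → Bool) (i : Fin m) => X i) ⁻¹' {f | P (List.ofFn f)} := by
      ext X
      have : pre X m = List.ofFn (fun i : Fin m => X i) := by
        apply List.ext_getElem?
        intro j
        by_cases hj : j < m
        · rw [pre_getElem? X m j hj]
          simp [hj]
        · rw [List.getElem?_eq_none (by simp; omega), List.getElem?_eq_none (by simp; omega)]
      show P (pre X m) ↔ P (List.ofFn (fun i : Fin m => X i))
      rw [this]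
    rw [h2]
    exact (isOpen_discrete _).preimage hc
  obtain ⟨m, hm⟩ := (isCompact_univ (X := ℕ → Bool)).elim_directed_cover
    (fun m => {X : ℕ → Bool | P (pre X m)}) hopen
    (fun X _ => by
      obtain ⟨m, hm⟩ := h X
      exact Set.mem_iUnion.2 ⟨m, hm⟩)
    (by
      intro a b
      refine ⟨max a b, ?_, ?_⟩
      · intro X hX
        exact hmono _ _ (pre_prefix X (le_max_left _ _)) hX
      · intro X hX
        exact hmono _ _ (pre_prefix X (le_max_right _ _)) hX)
  refine ⟨m, fun τ hτ => ?_⟩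
  have h1 := hm (Set.mem_univ (pad τ))
  have h2 : P (pre (pad τ) m) := h1
  have h3 := ext_pad τ
  unfold Ext at h3
  rw [← hτ, ← h3] at h2
  exact h2

/-- A functional which is total on all oracles, with values `a n X`, has computable
approximations decided by finitely many bits of the oracle. -/
theorem tt {δ : (ℕ → Bool) → ℕ →. ℕ} (hδ : OracleRec δ) (htot : ∀ X n, (δ X n).Dom) :
    ∃ (u : ℕ → ℕ) (v : ℕ → List Bool → ℕ), Computable u ∧ Computable₂ v ∧
      ∀ n τ X, u n ≤ τ.length → Ext τ X → v n τ ∈ δ X n := by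
  obtain ⟨δh, hh⟩ := hat hδ
  obtain ⟨ap, hap, hap1, hap2⟩ := approx hh.part
  have H1 : ∀ n, ∃ u, ∀ τ : List Bool, τ.length = u → ∃ s v, ap s (τ, n) = some v := by
    intro n
    refine compact (fun τ => ∃ s v, ap s (τ, n) = some v) ?_ ?_
    · rintro τ τ' hp ⟨s, v, hs⟩
      have h1 := (hap2 (τ, n) v).2 ⟨s, hs⟩
      have h2 := hh.mono _ _ _ _ hp h1
      obtain ⟨s', hs'⟩ := (hap2 (τ', n) v).1 h2
      exact ⟨s', v, hs'⟩
    · intro X
      obtain ⟨y, hy⟩ := Part.dom_iff_mem.1 (htot X n)
      obtain ⟨m, hm⟩ := hh.complete _ _ _ hy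
      obtain ⟨s, hs⟩ := (hap2 (pre X m, n) y).1 hm
      exact ⟨m, s, y, hs⟩
  have H2 : ∀ n, ∃ w : ℕ, (allLen w.unpair.1).all
      (fun τ => (ap w.unpair.2 (τ, n)).isSome) = true := by
    intro n
    obtain ⟨u, hu⟩ := H1 n
    choose! s v hs using hu
    obtain ⟨S, hS⟩ : ∃ S, ∀ τ ∈ allLen u, s τ ≤ S := by
      refine ⟨((allLen u).map s).sum, fun τ hτ => ?_⟩
      exact List.single_le_sum (by simp) _ (List.mem_map_of_mem hτ)
    refine ⟨Nat.pair u S, ?_⟩
    simp only [Nat.unpair_pair, List.all_eq_true]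
    intro τ hτ
    have h1 := hs τ ((mem_allLen u τ).1 hτ)
    have h2 := hap1 _ _ _ _ (hS τ hτ) h1
    rw [h2]
    rfl
  have hW : Computable fun n => Nat.find (H2 n) := by
    refine comp_find (fun n w => (allLen w.unpair.1).all
      (fun τ => (ap w.unpair.2 (τ, n)).isSome)) ?_ H2
    refine comp_all (f := fun p : ℕ × ℕ => allLen p.2.unpair.1)
      (g := fun p τ => (ap p.2.unpair.2 (τ, p.1)).isSome) ?_ ?_
    · exact comp_allLen (comp_unpair1.comp Computable.snd)
    · refine (Primrec.option_isSome.to_comp).comp ?_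
      exact hap.comp (comp_unpair2.comp (Computable.snd.comp Computable.fst))
        (Computable.pair Computable.snd (Computable.fst.comp Computable.fst))
  refine ⟨fun n => (Nat.find (H2 n)).unpair.1, fun n τ =>
    (ap (Nat.find (H2 n)).unpair.2 (τ.take (Nat.find (H2 n)).unpair.1, n)).getD 0, ?_, ?_, ?_⟩
  · exact comp_unpair1.comp hW
  · refine Computable.option_getD (f := fun p : ℕ × List Bool =>
      ap (Nat.find (H2 p.1)).unpair.2 (p.2.take (Nat.find (H2 p.1)).unpair.1, p.1))
      (g := fun _ => 0) ?_ (Computable.const 0)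
    refine hap.comp (comp_unpair2.comp (hW.comp Computable.fst)) (Computable.pair ?_ Computable.fst)
    exact comp_take Computable.snd (comp_unpair1.comp (hW.comp Computable.fst))
  · intro n τ X hu hX
    have h1 := Nat.find_spec (H2 n)
    have h2 := List.all_eq_true.1 h1 (τ.take (Nat.find (H2 n)).unpair.1)
      ((mem_allLen _ _).2 (by rw [List.length_take]; exact min_eq_left hu))
    obtain ⟨v, hv⟩ := Option.isSome_iff_exists.1 h2
    show (ap (Nat.find (H2 n)).unpair.2
      (τ.take (Nat.find (H2 n)).unpair.1, n)).getD 0 ∈ δ X n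
    rw [hv]
    have h3 := (hap2 (τ.take (Nat.find (H2 n)).unpair.1, n) v).2 ⟨_, hv⟩
    exact hh.sound _ _ _ _ (hX.of_prefix (List.take_prefix _ _)) h3

end Pool.Agent.H696R2.NH
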