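import Pool.Agent.H696R2.NH.Tools

set_option autoImplicit false

/-!
# The priority construction

Level `n` deals with requirement `n`. It runs the construction for the later requirements (level
`n + 1`) above a base; this subconstruction is run by the index `c` itself (recursion theorem), and
level `n` sees it only with a delay (`Sc`). When the requirement can act, level `n` acts and
restarts the subconstruction above the new base.
-/

namespace Pool.Agent.H696R2.NH

open Pool.Agent.Helper223
open Nat.Partrec (Code)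

/-- one step of the delayed view -/
def upd (acc : List Bool) (o : Option ℕ) : List Bool :=
  (o.bind (fun z => (Encodable.decode z : Option (List Bool)))).elim acc
    (fun ρ => cond (isPre acc ρ) ρ acc)

/-- the delayed view of the construction at level `n` above `σ`, run by the index `c` -/
def Sc (c : Code) (n : ℕ) (σ : List Bool) (s : ℕ) : List Bool :=
  Nat.rec σ (fun t acc => upd acc
    (c.evaln t.unpair.2 (Encodable.encode ((n, σ, t.unpair.1) : ℕ × List Bool × ℕ)))) s

theorem Sc_zero (c : Code) (n : ℕ) (σ : List Bool) : Sc c n σ 0 = σ := rfl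

theorem Sc_succ (c : Code) (n : ℕ) (σ : List Bool) (s : ℕ) : Sc c n σ (s + 1) =
    upd (Sc c n σ s)
      (c.evaln s.unpair.2 (Encodable.encode ((n, σ, s.unpair.1) : ℕ × List Bool × ℕ))) := rfl

theorem upd_cases (acc : List Bool) (o : Option ℕ) : (upd acc o = acc ∨
    ∃ ρ, o.bind (fun z => (Encodable.decode z : Option (List Bool))) = some ρ ∧ acc <+: ρ ∧
      upd acc o = ρ) := by
  unfold upd
  cases h : o.bind (fun z => (Encodable.decode z : Option (List Bool))) with
  | none => left; rfl
  | some ρ =>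
    cases h2 : isPre acc ρ with
    | false => left; simp [h2]
    | true =>
      right
      exact ⟨ρ, rfl, (isPre_iff _ _).1 h2, by simp [h2]⟩

theorem prefix_upd (acc : List Bool) (o : Option ℕ) : acc <+: upd acc o := by
  rcases upd_cases acc o with h | ⟨ρ, _, h2, h3⟩
  · rw [h]
  · rw [h3]; exact h2

theorem Sc_mono (c : Code) (n : ℕ) (σ : List Bool) {s s' : ℕ} (h : s ≤ s') :
    Sc c n σ s <+: Sc c n σ s' := by
  induction h with
  | refl => exact List.prefix_rfl
  | step _ ih => exact ih.trans (prefix_upd _ _)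

theorem prefix_Sc (c : Code) (n : ℕ) (σ : List Bool) (s : ℕ) : σ <+: Sc c n σ s :=
  Sc_mono c n σ (Nat.zero_le s)

theorem comp_upd {α : Type} [Primcodable α] {f : α → List Bool} {g : α → Option ℕ}
    (hf : Computable f) (hg : Computable g) : Computable fun a => upd (f a) (g a) := by
  have h1 : Computable fun a => (g a).bind
      (fun z => (Encodable.decode z : Option (List Bool))) :=
    Computable.option_bind hg (Computable.decode.comp Computable.snd)
  have h2 : Computable fun a => (Option.casesOn (motive := fun _ => List Bool) ((g a).bind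
      (fun z => (Encodable.decode z : Option (List Bool)))) (f a)
      (fun ρ => cond (isPre (f a) ρ) ρ (f a))) := by
    refine Computable.option_casesOn h1 hf ?_
    refine Computable.cond (comp_isPre (hf.comp Computable.fst) Computable.snd) Computable.snd
      (hf.comp Computable.fst)
  refine h2.of_eq fun a => ?_
  unfold upd
  cases (g a).bind (fun z => (Encodable.decode z : Option (List Bool))) <;> rfl

theorem comp_Sc {α : Type} [Primcodable α] {c : α → Code} {n : α → ℕ} {σ : α → List Bool}
    {s : α → ℕ} (hc : Computable c) (hn : Computable n) (hσ : Computable σ) (hs : Computable s) :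
    Computable fun a => Sc (c a) (n a) (σ a) (s a) := by
  unfold Sc
  refine Computable.nat_rec (f := s) (g := σ) (h := fun a (p : ℕ × List Bool) => upd p.2
    ((c a).evaln p.1.unpair.2
      (Encodable.encode ((n a, σ a, p.1.unpair.1) : ℕ × List Bool × ℕ)))) hs hσ ?_
  refine comp_upd (Computable.snd.comp Computable.snd) ?_
  refine Nat.Partrec.Code.primrec_evaln.to_comp.comp (g := fun q : α × (ℕ × List Bool) =>
    (((q.2.1.unpair.2, c q.1), Encodable.encode ((n q.1, σ q.1, q.2.1.unpair.1) :
      ℕ × List Bool × ℕ)) : (ℕ × Code) × ℕ)) ?_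
  refine Computable.pair (Computable.pair (comp_unpair2.comp (Computable.fst.comp Computable.snd))
    (hc.comp Computable.fst)) (Computable.encode.comp ?_)
  exact Computable.pair (hn.comp Computable.fst) (Computable.pair (hσ.comp Computable.fst)
    (comp_unpair1.comp (Computable.fst.comp Computable.snd)))

/-- the state of level `n`: whether it has acted, the base, and the sequence committed so far -/
abbrev St := Bool × List Bool × List Bool

/-- one step of level `n` -/
def stp (Ev : ℕ × ℕ × List Bool × List Bool → Option (List Bool)) (c : Code) (n : ℕ)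
    (k : ℕ) (st : St) : St :=
  cond st.1 (true, st.2.1, Sc c (n + 1) st.2.1 k)
    ((Ev (n, k, st.2.2, Sc c (n + 1) st.2.1 k)).elim
      (false, st.2.1, Sc c (n + 1) st.2.1 k) (fun τ => (true, τ, τ)))

/-- level `n` above `σ` -/
def run (Ev : ℕ × ℕ × List Bool × List Bool → Option (List Bool)) (c : Code) (n : ℕ)
    (σ : List Bool) (k : ℕ) : St :=
  Nat.rec (false, σ ++ [false], σ ++ [false]) (fun j st => stp Ev c n j st) k

section

variable {Ev : ℕ × ℕ × List Bool × List Bool → Option (List Bool)}

theorem comp_run (hEv : Computable Ev) {α : Type} [Primcodable α] {c : α → Code} {n : α → ℕ}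
    {σ : α → List Bool} {s : α → ℕ} (hc : Computable c) (hn : Computable n)
    (hσ : Computable σ) (hs : Computable s) :
    Computable fun a => run Ev (c a) (n a) (σ a) (s a) := by
  unfold run
  have hσ1 : Computable fun a => σ a ++ [false] :=
    Computable.list_append.comp hσ (Computable.const [false])
  refine Computable.nat_rec (f := s) (g := fun a => (false, σ a ++ [false], σ a ++ [false]))
    (h := fun a (p : ℕ × St) => stp Ev (c a) (n a) p.1 p.2) hs
    (Computable.pair (Computable.const false) (Computable.pair hσ1 hσ1)) ?_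
  have hst : Computable fun q : α × (ℕ × St) => q.2.2 := Computable.snd.comp Computable.snd
  have hb : Computable fun q : α × (ℕ × St) => q.2.2.2.1 :=
    Computable.fst.comp (Computable.snd.comp hst)
  have hcm : Computable fun q : α × (ℕ × St) => q.2.2.2.2 :=
    Computable.snd.comp (Computable.snd.comp hst)
  have hk : Computable fun q : α × (ℕ × St) => q.2.1 := Computable.fst.comp Computable.snd
  have hSc : Computable fun q : α × (ℕ × St) => Sc (c q.1) (n q.1 + 1) q.2.2.2.1 q.2.1 :=
    comp_Sc (hc.comp Computable.fst) (Computable.succ.comp (hn.comp Computable.fst)) hb hk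
  have h1 : Computable fun q : α × (ℕ × St) =>
      cond q.2.2.1 (true, q.2.2.2.1, Sc (c q.1) (n q.1 + 1) q.2.2.2.1 q.2.1)
      ((Option.casesOn (motive := fun _ => St)
        (Ev (n q.1, q.2.1, q.2.2.2.2, Sc (c q.1) (n q.1 + 1) q.2.2.2.1 q.2.1))
      (false, q.2.2.2.1, Sc (c q.1) (n q.1 + 1) q.2.2.2.1 q.2.1) (fun τ => (true, τ, τ)))) := by
    refine Computable.cond (Computable.fst.comp hst)
      (Computable.pair (Computable.const true) (Computable.pair hb hSc)) ?_
    refine Computable.option_casesOn ?_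
      (Computable.pair (Computable.const false) (Computable.pair hb hSc)) ?_
    · exact hEv.comp (Computable.pair (hn.comp Computable.fst) (Computable.pair hk
        (Computable.pair hcm hSc)))
    · exact Computable.pair (Computable.const true)
        (Computable.pair Computable.snd Computable.snd)
  refine h1.of_eq fun q => ?_
  unfold stp
  dsimp only
  cases (Ev (n q.1, q.2.1, q.2.2.2.2, Sc (c q.1) (n q.1 + 1) q.2.2.2.1 q.2.1)) <;> rfl

theorem run_zero (c : Code) (n : ℕ) (σ : List Bool) :
    run Ev c n σ 0 = (false, σ ++ [false], σ ++ [false]) := rfl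

theorem run_succ (c : Code) (n : ℕ) (σ : List Bool) (k : ℕ) :
    run Ev c n σ (k + 1) = stp Ev c n k (run Ev c n σ k) := rfl

/-- the sequence committed by level `n` above `σ` after `k` steps -/
def cm (Ev : ℕ × ℕ × List Bool × List Bool → Option (List Bool)) (c : Code) (n : ℕ)
    (σ : List Bool) (k : ℕ) : List Bool := (run Ev c n σ k).2.2

/-- the base of level `n` above `σ` after `k` steps -/
def bs (Ev : ℕ × ℕ × List Bool × List Bool → Option (List Bool)) (c : Code) (n : ℕ)
    (σ : List Bool) (k : ℕ) : List Bool := (run Ev c n σ k).2.1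

/-- whether level `n` above `σ` has acted after `k` steps -/
def ac (Ev : ℕ × ℕ × List Bool × List Bool → Option (List Bool)) (c : Code) (n : ℕ)
    (σ : List Bool) (k : ℕ) : Bool := (run Ev c n σ k).1

/-- The three possibilities for a step. -/
theorem step_cases (c : Code) (n : ℕ) (σ : List Bool) (k : ℕ) :
    (ac Ev c n σ k = true ∧ ac Ev c n σ (k + 1) = true ∧ bs Ev c n σ (k + 1) = bs Ev c n σ k ∧
      cm Ev c n σ (k + 1) = Sc c (n + 1) (bs Ev c n σ k) k) ∨
    (ac Ev c n σ k = false ∧ ac Ev c n σ (k + 1) = false ∧ bs Ev c n σ (k + 1) = bs Ev c n σ k ∧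
      cm Ev c n σ (k + 1) = Sc c (n + 1) (bs Ev c n σ k) k ∧
      Ev (n, k, cm Ev c n σ k, Sc c (n + 1) (bs Ev c n σ k) k) = none) ∨
    (ac Ev c n σ k = false ∧ ac Ev c n σ (k + 1) = true ∧
      cm Ev c n σ (k + 1) = bs Ev c n σ (k + 1) ∧
      Ev (n, k, cm Ev c n σ k, Sc c (n + 1) (bs Ev c n σ k) k) =
        some (bs Ev c n σ (k + 1))) := by
  have hr := run_succ (Ev := Ev) c n σ k
  unfold stp at hr
  cases h1 : ac Ev c n σ k with
  | true =>
    left
    have h1' : (run Ev c n σ k).1 = true := h1
    rw [h1', cond_true] at hr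
    refine ⟨rfl, ?_, ?_, ?_⟩
    · unfold ac; rw [hr]
    · unfold bs; rw [hr]
    · unfold cm bs; rw [hr]
  | false =>
    right
    have h1' : (run Ev c n σ k).1 = false := h1
    rw [h1', cond_false] at hr
    cases h2 : Ev (n, k, cm Ev c n σ k, Sc c (n + 1) (bs Ev c n σ k) k) with
    | none =>
      left
      have h2' : Ev (n, k, (run Ev c n σ k).2.2, Sc c (n + 1) (run Ev c n σ k).2.1 k) = none := h2
      rw [h2'] at hr
      refine ⟨rfl, ?_, ?_, ?_, rfl⟩
      · unfold ac; rw [hr]; rfl
      · unfold bs; rw [hr]; rfl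
      · unfold cm bs; rw [hr]; rfl
    | some τ =>
      right
      have h2' : Ev (n, k, (run Ev c n σ k).2.2, Sc c (n + 1) (run Ev c n σ k).2.1 k) =
        some τ := h2
      rw [h2'] at hr
      refine ⟨rfl, ?_, ?_, ?_⟩
      · unfold ac; rw [hr]; rfl
      · unfold cm bs; rw [hr]; rfl
      · unfold bs; rw [hr]; rfl

/-- The committed sequence extends the base, and it is either the base or a previous value of the
delayed view. -/
theorem cm_inv (c : Code) (n : ℕ) (σ : List Bool) (k : ℕ) :
    cm Ev c n σ k = bs Ev c n σ k ∨ ∃ j < k, cm Ev c n σ k = Sc c (n + 1) (bs Ev c n σ k) j := by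
  induction k with
  | zero => left; rfl
  | succ k ih =>
    rcases step_cases (Ev := Ev) c n σ k with ⟨_, _, h3, h4⟩ | ⟨_, _, h3, h4, _⟩ | ⟨_, _, h3, _⟩
    · right; exact ⟨k, Nat.lt_succ_self k, by rw [h4, h3]⟩
    · right; exact ⟨k, Nat.lt_succ_self k, by rw [h4, h3]⟩
    · left; exact h3

theorem cm_prefix_Sc (c : Code) (n : ℕ) (σ : List Bool) (k : ℕ) :
    cm Ev c n σ k <+: Sc c (n + 1) (bs Ev c n σ k) k := by
  rcases cm_inv (Ev := Ev) c n σ k with h | ⟨j, hj, h⟩
  · rw [h]; exact prefix_Sc _ _ _ _
  · rw [h]; exact Sc_mono _ _ _ (le_of_lt hj)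

/-- the actions extend what has been committed -/
def EvOk (Ev : ℕ × ℕ × List Bool × List Bool → Option (List Bool)) : Prop :=
  ∀ n k ρ ρ' τ, ρ <+: ρ' → Ev (n, k, ρ, ρ') = some τ → ρ <+: τ

theorem cm_step (hOk : EvOk Ev) (c : Code) (n : ℕ) (σ : List Bool) (k : ℕ) :
    cm Ev c n σ k <+: cm Ev c n σ (k + 1) := by
  have h0 := cm_prefix_Sc (Ev := Ev) c n σ k
  rcases step_cases (Ev := Ev) c n σ k with ⟨_, _, h3, h4⟩ | ⟨_, _, h3, h4, _⟩ | ⟨_, _, h3, h4⟩
  · rw [h4]; exact h0
  · rw [h4]; exact h0
  · rw [h3]; exact hOk _ _ _ _ _ h0 h4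

theorem cm_mono (hOk : EvOk Ev) (c : Code) (n : ℕ) (σ : List Bool) {k k' : ℕ} (h : k ≤ k') :
    cm Ev c n σ k <+: cm Ev c n σ k' := by
  induction h with
  | refl => exact List.prefix_rfl
  | step _ ih => exact ih.trans (cm_step hOk _ _ _ _)

theorem prefix_cm (hOk : EvOk Ev) (c : Code) (n : ℕ) (σ : List Bool) (k : ℕ) :
    σ ++ [false] <+: cm Ev c n σ k :=
  cm_mono hOk c n σ (Nat.zero_le k)

theorem length_cm (hOk : EvOk Ev) (c : Code) (n : ℕ) (σ : List Bool) (k : ℕ) :
    σ.length + 1 ≤ (cm Ev c n σ k).length := by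
  have := (prefix_cm hOk c n σ k).length_le
  simpa using this

/-- what `c` has to compute -/
def IsFix (Ev : ℕ × ℕ × List Bool × List Bool → Option (List Bool)) (c : Code) : Prop :=
  ∀ n σ k, c.eval (Encodable.encode ((n, σ, k) : ℕ × List Bool × ℕ)) =
    Part.some (Encodable.encode (cm Ev c n σ k))

theorem exists_fix (hEv : Computable Ev) : ∃ c, IsFix Ev c := by
  have h0 : Computable fun p : (Code × ℕ) × (ℕ × List Bool × ℕ) =>
      cm Ev p.1.1 p.2.1 p.2.2.1 p.2.2.2 :=
    Computable.snd.comp (Computable.snd.comp (comp_run hEv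
      (Computable.fst.comp Computable.fst) (Computable.fst.comp Computable.snd)
      (Computable.fst.comp (Computable.snd.comp Computable.snd))
      (Computable.snd.comp (Computable.snd.comp Computable.snd))))
  have h2 : Computable fun p : Code × ℕ =>
      (Encodable.decode p.2 : Option (ℕ × List Bool × ℕ)).map fun q =>
        cm Ev p.1 q.1 q.2.1 q.2.2 :=
    Computable.option_map (Computable.decode.comp Computable.snd) h0
  have h3 : Computable fun p : Code × ℕ =>
      ((Encodable.decode p.2 : Option (ℕ × List Bool × ℕ)).map fun q =>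
        cm Ev p.1 q.1 q.2.1 q.2.2).getD [] :=
    Computable.option_getD h2 (Computable.const [])
  have h4 : Computable₂ fun (c : Code) (z : ℕ) => Encodable.encode
      (((Encodable.decode z : Option (ℕ × List Bool × ℕ)).map fun q =>
        cm Ev c q.1 q.2.1 q.2.2).getD []) := Computable.encode.comp h3
  have h1 := h4.partrec₂
  obtain ⟨c, hc⟩ := Nat.Partrec.Code.fixed_point₂ h1
  refine ⟨c, fun n σ k => ?_⟩
  rw [hc]
  simp

variable {c : Code}

theorem Sc_values (hc : IsFix Ev c) (n : ℕ) (σ : List Bool) (s : ℕ) :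
    Sc c n σ s = σ ∨ ∃ k, Sc c n σ s = cm Ev c n σ k := by
  induction s with
  | zero => left; rfl
  | succ s ih =>
    rw [Sc_succ]
    rcases upd_cases (Sc c n σ s) (c.evaln s.unpair.2
      (Encodable.encode ((n, σ, s.unpair.1) : ℕ × List Bool × ℕ))) with h | ⟨ρ, h1, _, h3⟩
    · rw [h]; exact ih
    · right
      refine ⟨s.unpair.1, ?_⟩
      rw [h3]
      obtain ⟨z, hz, hz2⟩ := Option.bind_eq_some_iff.1 h1
      have h4 := Nat.Partrec.Code.evaln_sound hz
      rw [hc n σ s.unpair.1] at h4
      have h5 : z = Encodable.encode (cm Ev c n σ s.unpair.1) := by simpa using h4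
      rw [h5, Encodable.encodek] at hz2
      exact (Option.some.inj hz2).symm

theorem Sc_catch (hOk : EvOk Ev) (hc : IsFix Ev c) (n : ℕ) (σ : List Bool) (k : ℕ) :
    ∃ s0, ∀ s ≥ s0, cm Ev c n σ k <+: Sc c n σ s := by
  have h1 : Encodable.encode (cm Ev c n σ k) ∈
      c.eval (Encodable.encode ((n, σ, k) : ℕ × List Bool × ℕ)) := by
    rw [hc n σ k]; exact Part.mem_some _
  obtain ⟨t, ht⟩ := Nat.Partrec.Code.evaln_complete.1 h1
  refine ⟨Nat.pair k t + 1, fun s hs => ?_⟩
  refine List.IsPrefix.trans ?_ (Sc_mono c n σ hs)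
  rw [Sc_succ, Nat.unpair_pair]
  have ht' : c.evaln t (Encodable.encode ((n, σ, k) : ℕ × List Bool × ℕ)) =
      some (Encodable.encode (cm Ev c n σ k)) := ht
  show cm Ev c n σ k <+: upd (Sc c n σ (Nat.pair k t)) (c.evaln t
    (Encodable.encode ((n, σ, k) : ℕ × List Bool × ℕ)))
  rw [ht']
  have hu : upd (Sc c n σ (Nat.pair k t)) (some (Encodable.encode (cm Ev c n σ k))) =
      cond (isPre (Sc c n σ (Nat.pair k t)) (cm Ev c n σ k)) (cm Ev c n σ k)
        (Sc c n σ (Nat.pair k t)) := by
    unfold upd
    simp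
  rw [hu]
  cases h2 : isPre (Sc c n σ (Nat.pair k t)) (cm Ev c n σ k) with
  | true => exact List.prefix_rfl
  | false =>
    rw [cond_false]
    have h3 : ¬ (Sc c n σ (Nat.pair k t) <+: cm Ev c n σ k) := by
      intro h
      rw [(isPre_iff _ _).2 h] at h2
      cases h2
    rcases Sc_values hc n σ (Nat.pair k t) with h4 | ⟨j, h4⟩
    · exfalso
      apply h3
      rw [h4]
      exact (List.prefix_append _ _).trans (prefix_cm hOk c n σ k)
    · rw [h4] at h3 ⊢
      rcases le_total j k with h5 | h5
      · exact absurd (cm_mono hOk c n σ h5) h3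
      · exact cm_mono hOk c n σ h5

/-- The base of level `n` stabilizes. -/
theorem stab (hOk : EvOk Ev) (n : ℕ) (σ : List Bool) : ∃ b K, σ.length + 1 ≤ b.length ∧
    (∀ k ≥ K, bs Ev c n σ k = b ∧ cm Ev c n σ (k + 1) = Sc c (n + 1) b k) ∧
    ((∃ k ρ ρ', Ev (n, k, ρ, ρ') = some b) ∨ (K = 0 ∧ b = σ ++ [false] ∧
      ∀ k, Ev (n, k, cm Ev c n σ k, Sc c (n + 1) b k) = none)) := by
  by_cases h : ∃ k, ac Ev c n σ k = true
  · classical
    have hspec := Nat.find_spec h
    have hmin : ∀ j < Nat.find h, ac Ev c n σ j = false := by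
      intro j hj
      have := Nat.find_min h hj
      simpa using this
    obtain ⟨K, hK⟩ : ∃ K, Nat.find h = K + 1 := by
      refine Nat.exists_eq_succ_of_ne_zero ?_
      intro h0
      rw [h0] at hspec
      cases hspec
    rw [hK] at hspec hmin
    have hact : ∀ d, ac Ev c n σ (K + 1 + d) = true ∧
        bs Ev c n σ (K + 1 + d) = bs Ev c n σ (K + 1) := by
      intro d
      induction d with
      | zero => exact ⟨hspec, rfl⟩
      | succ d ih =>
        rcases step_cases (Ev := Ev) c n σ (K + 1 + d) with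
          ⟨_, h2, h3, _⟩ | ⟨h1, _, _, _, _⟩ | ⟨h1, _, _, _⟩
        · exact ⟨h2, h3.trans ih.2⟩
        · rw [ih.1] at h1; cases h1
        · rw [ih.1] at h1; cases h1
    rcases step_cases (Ev := Ev) c n σ K with
        ⟨h1, _, _, _⟩ | ⟨_, h2, _, _, _⟩ | ⟨_, _, h3, h4⟩
    · rw [hmin K (Nat.lt_succ_self K)] at h1; cases h1
    · rw [hspec] at h2; cases h2
    · refine ⟨bs Ev c n σ (K + 1), K + 1, ?_, ?_, Or.inl ⟨_, _, _, h4⟩⟩
      · rw [← h3]; exact length_cm hOk c n σ (K + 1)
      · intro k hk
        obtain ⟨d, rfl⟩ := Nat.exists_eq_add_of_le hk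
        obtain ⟨h5, h6⟩ := hact d
        refine ⟨h6, ?_⟩
        rcases step_cases (Ev := Ev) c n σ (K + 1 + d) with
          ⟨_, _, _, h7⟩ | ⟨h1, _, _, _, _⟩ | ⟨h1, _, _, _⟩
        · rw [h7, h6]
        · rw [h5] at h1; cases h1
        · rw [h5] at h1; cases h1
  · have hno : ∀ k, ac Ev c n σ k = false := by
      intro k
      cases h2 : ac Ev c n σ k with
      | false => rfl
      | true => exact absurd ⟨k, h2⟩ h
    have hb : ∀ k, bs Ev c n σ k = σ ++ [false] := by
      intro k
      induction k with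
      | zero => rfl
      | succ k ih =>
        rcases step_cases (Ev := Ev) c n σ k with
          ⟨h1, _, _, _⟩ | ⟨_, _, h3, _, _⟩ | ⟨_, h2, _, _⟩
        · rw [hno k] at h1; cases h1
        · rw [h3, ih]
        · rw [hno (k + 1)] at h2; cases h2
    have hst : ∀ k, cm Ev c n σ (k + 1) = Sc c (n + 1) (σ ++ [false]) k ∧
        Ev (n, k, cm Ev c n σ k, Sc c (n + 1) (σ ++ [false]) k) = none := by
      intro k
      rcases step_cases (Ev := Ev) c n σ k with
        ⟨h1, _, _, _⟩ | ⟨_, _, _, h4, h5⟩ | ⟨_, h2, _, _⟩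
      · rw [hno k] at h1; cases h1
      · rw [hb k] at h4 h5; exact ⟨h4, h5⟩
      · rw [hno (k + 1)] at h2; cases h2
    refine ⟨σ ++ [false], 0, by simp, fun k _ => ⟨hb k, (hst k).1⟩, Or.inr ⟨rfl, rfl, ?_⟩⟩
    exact fun k => (hst k).2

/-- The committed sequences grow without bound. -/
theorem cm_unbounded (hOk : EvOk Ev) (hc : IsFix Ev c) (m : ℕ) : ∀ n σ, ∃ k,
    σ.length + m ≤ (cm Ev c n σ k).length := by
  induction m with
  | zero =>
    intro n σ
    refine ⟨0, ?_⟩
    have := length_cm hOk c n σ 0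
    omega
  | succ m ih =>
    intro n σ
    obtain ⟨b, K, hb, hst, -⟩ := stab (c := c) hOk n σ
    obtain ⟨k, hk⟩ := ih (n + 1) b
    obtain ⟨s0, hs0⟩ := Sc_catch hOk hc (n + 1) b k
    refine ⟨max K s0 + 1, ?_⟩
    rw [(hst (max K s0) (le_max_left _ _)).2]
    have := (hs0 (max K s0) (le_max_right _ _)).length_le
    omega

/-- The outcome of the construction. -/
theorem construction (hEv : Computable Ev) (hOk : EvOk Ev) : ∃ (c : Code) (B : ℕ → Bool),
    Computable B ∧ ∀ n, ∃ b, (∀ k, Ext (Sc c (n + 1) b k) B) ∧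
      ((∃ k ρ ρ', Ev (n, k, ρ, ρ') = some b) ∨
      ((∀ m, ∃ k, m ≤ (Sc c (n + 1) b k).length) ∧
        Ev (n, 0, b, b) = none ∧
        ∀ k, Ev (n, k + 1, Sc c (n + 1) b k, Sc c (n + 1) b (k + 1)) = none)) := by
  obtain ⟨c, hc⟩ := exists_fix hEv
  have hex : ∀ j, ∃ k, decide (j < (cm Ev c 0 [] k).length) = true := by
    intro j
    obtain ⟨k, hk⟩ := cm_unbounded hOk hc (j + 1) 0 []
    refine ⟨k, ?_⟩
    rw [decide_eq_true_iff]
    simp at hk
    omega
  let B : ℕ → Bool := fun j => ((cm Ev c 0 [] (Nat.find (hex j)))[j]?).getD false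
  have hcm : Computable fun k => cm Ev c 0 [] k :=
    Computable.snd.comp (Computable.snd.comp (comp_run hEv (Computable.const c)
      (Computable.const 0) (Computable.const []) Computable.id))
  have hB : Computable B := by
    have hfind : Computable fun j => Nat.find (hex j) := by
      refine comp_find (fun j k => decide (j < (cm Ev c 0 [] k).length)) ?_ hex
      refine (Primrec.nat_lt.decide.to_comp).comp Computable.fst ?_
      exact Computable.list_length.comp (hcm.comp Computable.snd)
    refine Computable.option_getD (Computable.list_getElem?.comp (hcm.comp hfind)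
      Computable.id) (Computable.const false)
  have hB0 : ∀ k, Ext (cm Ev c 0 [] k) B := by
    intro k
    apply ext_of_get
    intro j x hj
    have h1 : j < (cm Ev c 0 [] (Nat.find (hex j))).length := by
      have := Nat.find_spec (hex j)
      simpa using this
    have h2 : (cm Ev c 0 [] (Nat.find (hex j)))[j]? = some x := by
      have hlt : j < (cm Ev c 0 [] k).length := by
        by_contra hcc
        rw [List.getElem?_eq_none (by omega)] at hj
        cases hj
      rcases le_total k (Nat.find (hex j)) with h | h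
      · obtain ⟨r, hr⟩ := cm_mono (Ev := Ev) hOk c 0 [] h
        rw [← hr, List.getElem?_append_left hlt]
        exact hj
      · obtain ⟨r, hr⟩ := cm_mono (Ev := Ev) hOk c 0 [] h
        rw [← hr, List.getElem?_append_left h1] at hj
        exact hj
    show ((cm Ev c 0 [] (Nat.find (hex j)))[j]?).getD false = x
    rw [h2]
    rfl
  have hdesc : ∀ n, ∃ σ, ∀ k, Ext (cm Ev c n σ k) B := by
    intro n
    induction n with
    | zero => exact ⟨[], hB0⟩
    | succ n ih =>
      obtain ⟨σ, hσ⟩ := ih
      obtain ⟨b, K, _, hst, -⟩ := stab (c := c) hOk n σ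
      refine ⟨b, fun k => ?_⟩
      obtain ⟨s0, hs0⟩ := Sc_catch hOk hc (n + 1) b k
      have h1 := hs0 (max K s0) (le_max_right _ _)
      rw [← (hst (max K s0) (le_max_left _ _)).2] at h1
      exact (hσ _).of_prefix h1
  refine ⟨c, B, hB, fun n => ?_⟩
  obtain ⟨σ, hσ⟩ := hdesc n
  obtain ⟨b, K, hb, hst, hcase⟩ := stab (c := c) hOk n σ
  have hall : ∀ k, Ext (Sc c (n + 1) b k) B := by
    intro k
    have h1 := hσ (max K k + 1)
    rw [(hst (max K k) (le_max_left _ _)).2] at h1
    exact h1.of_prefix (Sc_mono _ _ _ (le_max_right _ _))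
  refine ⟨b, hall, ?_⟩
  rcases hcase with h | ⟨hK, hbσ, hnone⟩
  · left; exact h
  · right
    subst hK
    refine ⟨?_, ?_, ?_⟩
    · intro m
      obtain ⟨k, hk⟩ := cm_unbounded hOk hc m (n + 1) b
      obtain ⟨s0, hs0⟩ := Sc_catch hOk hc (n + 1) b k
      refine ⟨s0, ?_⟩
      have := (hs0 s0 le_rfl).length_le
      omega
    · have h0 := hnone 0
      have h1 : cm Ev c n σ 0 = b := by rw [hbσ]; rfl
      rw [h1] at h0
      exact h0
    · intro k
      have h0 := hnone (k + 1)
      rw [(hst k (Nat.zero_le _)).2] at h0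
      exact h0

end

end Pool.Agent.H696R2.NH
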