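import Mathlib

set_option autoImplicit false

/-!
# Relative Blum measures

Sets of natural numbers are given by their characteristic functions `ℕ → Bool`.
-/

namespace Pool.Agent.H696R2.NH

/-- Functionals computed by oracle machines: `F X n` is the output of the machine on input `n` with
the set (characteristic function) `X` as the oracle. One machine works for all oracles. The clauses
are those of the partial recursive functions (as in Mathlib's `Nat.Partrec`), and the query
`n ↦ X n`. -/
inductive OracleRec : ((ℕ → Bool) → ℕ →. ℕ) → Prop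
  | zero : OracleRec (fun _ _ => Part.some 0)
  | succ : OracleRec (fun _ n => Part.some (n + 1))
  | left : OracleRec (fun _ n => Part.some n.unpair.1)
  | right : OracleRec (fun _ n => Part.some n.unpair.2)
  | query : OracleRec (fun X n => Part.some (X n).toNat)
  | pair {f g : (ℕ → Bool) → ℕ →. ℕ} : OracleRec f → OracleRec g →
      OracleRec (fun X n => (f X n).bind fun a => (g X n).map fun b => Nat.pair a b)
  | comp {f g : (ℕ → Bool) → ℕ →. ℕ} : OracleRec f → OracleRec g →
      OracleRec (fun X n => (g X n).bind (f X))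
  | prec {f g : (ℕ → Bool) → ℕ →. ℕ} : OracleRec f → OracleRec g →
      OracleRec (fun X p => Nat.rec (f X p.unpair.1)
        (fun y IH => IH.bind fun i => g X (Nat.pair p.unpair.1 (Nat.pair y i))) p.unpair.2)
  | rfind {f : (ℕ → Bool) → ℕ →. ℕ} : OracleRec f →
      OracleRec (fun X a => Nat.rfind fun n => (f X (Nat.pair a n)).map fun m => decide (m = 0))

/-- A relative Blum measure `(φ, Φ)`: `φ i X` is the partial function computed by program `i` with
oracle `X` and `Φ i X` its cost function. -/
structure RelBlum where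
  /-- the programs -/
  φ : ℕ → (ℕ → Bool) → ℕ →. ℕ
  /-- the costs -/
  Φ : ℕ → (ℕ → Bool) → ℕ →. ℕ
  /-- the programs can be run by an oracle machine, uniformly in the program and the oracle -/
  uniform : OracleRec (fun X n => φ n.unpair.1 X n.unpair.2)
  /-- acceptability: every oracle machine with a parameter `e` can be translated, computably in
  `e` and uniformly in the oracle, into programs of the enumeration -/
  acceptable : ∀ Ψ : (ℕ → Bool) → ℕ →. ℕ, OracleRec Ψ →
    ∃ h : ℕ → ℕ, Computable h ∧ ∀ e X x, φ (h e) X x = Ψ X (Nat.pair e x)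
  /-- the cost is defined exactly when the value is -/
  dom : ∀ i X x, (Φ i X x).Dom ↔ (φ i X x).Dom
  /-- the predicate `Φ i X x = y` is decidable relative to `X`, uniformly in `i, x, y, X` -/
  dec : ∃ δ : (ℕ → Bool) → ℕ →. ℕ, OracleRec δ ∧ ∀ i x y X,
    (y ∈ Φ i X x → δ X (Nat.pair i (Nat.pair x y)) = Part.some 1) ∧
    (y ∉ Φ i X x → δ X (Nat.pair i (Nat.pair x y)) = Part.some 0)

/-- the empty oracle -/
def emptyO : ℕ → Bool := fun _ => false

/-- program `i` with oracle `X` computes the characteristic function of `A` -/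
def RelBlum.Computes (M : RelBlum) (i : ℕ) (X A : ℕ → Bool) : Prop :=
  ∀ x, M.φ i X x = Part.some (A x).toNat

/-- `Φ^X-Comp(A) >_io t`: every program for `A` with oracle `X` has cost above `t` infinitely
often -/
def RelBlum.CompIO (M : RelBlum) (X A : ℕ → Bool) (t : ℕ → ℕ) : Prop :=
  ∀ i, M.Computes i X A → ∀ N, ∃ x ≥ N, ∃ y ∈ M.Φ i X x, t x < y

/-- `Φ^X-Comp(A) >_ae t`: every program for `A` with oracle `X` has cost above `t` at all but
finitely many arguments -/
def RelBlum.CompAE (M : RelBlum) (X A : ℕ → Bool) (t : ℕ → ℕ) : Prop :=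
  ∀ i, M.Computes i X A → ∃ N, ∀ x ≥ N, ∃ y ∈ M.Φ i X x, t x < y

/-! ### Sanity checks: agreement with Mathlib's notion of relative computability -/

/-- the characteristic function of `X` as an oracle in Mathlib's sense -/
def chi (X : ℕ → Bool) : ℕ →. ℕ := fun n => Part.some (X n).toNat

theorem OracleRec.recursiveIn {F : (ℕ → Bool) → ℕ →. ℕ} (h : OracleRec F) (X : ℕ → Bool) :
    Nat.RecursiveIn {chi X} (F X) := by
  induction h with
  | zero => exact .zero
  | succ => exact .succ
  | left => exact .left
  | right => exact .right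
  | query => exact .oracle _ rfl
  | pair _ _ ihf ihg =>
    refine (Nat.RecursiveIn.pair ihf ihg).of_eq fun n => ?_
    simp [Seq.seq, Part.bind_map, Part.map_eq_map]
  | comp _ _ ihf ihg => exact (Nat.RecursiveIn.comp ihf ihg)
  | prec _ _ ihf ihg => exact (Nat.RecursiveIn.prec ihf ihg)
  | rfind _ ihf => exact (Nat.RecursiveIn.rfind ihf)

theorem exists_oracleRec {X : ℕ → Bool} {f : ℕ →. ℕ} (h : Nat.RecursiveIn {chi X} f) :
    ∃ F, OracleRec F ∧ F X = f := by
  induction h with
  | zero => exact ⟨_, .zero, rfl⟩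
  | succ => exact ⟨_, .succ, rfl⟩
  | left => exact ⟨_, .left, rfl⟩
  | right => exact ⟨_, .right, rfl⟩
  | oracle g hg => exact ⟨_, .query, (Set.mem_singleton_iff.1 hg).symm⟩
  | pair _ _ ihf ihg =>
    obtain ⟨F, hF, rfl⟩ := ihf
    obtain ⟨G, hG, rfl⟩ := ihg
    refine ⟨_, .pair hF hG, ?_⟩
    funext n
    simp [Seq.seq, Part.bind_map, Part.map_eq_map]
  | comp _ _ ihf ihg =>
    obtain ⟨F, hF, rfl⟩ := ihf
    obtain ⟨G, hG, rfl⟩ := ihg
    exact ⟨_, .comp hF hG, rfl⟩
  | prec _ _ ihf ihg =>
    obtain ⟨F, hF, rfl⟩ := ihf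
    obtain ⟨G, hG, rfl⟩ := ihg
    exact ⟨_, .prec hF hG, rfl⟩
  | rfind _ ihf =>
    obtain ⟨F, hF, rfl⟩ := ihf
    exact ⟨_, .rfind hF, rfl⟩

/-- For every relative Blum measure and every oracle `X`, the functions `φ i X` are exactly the
partial functions computable with oracle `X` in Mathlib's sense. -/
theorem RelBlum.enumerates (M : RelBlum) (X : ℕ → Bool) (f : ℕ →. ℕ) :
    Nat.RecursiveIn {chi X} f ↔ ∃ i, M.φ i X = f := by
  constructor
  · intro h
    obtain ⟨F, hF, rfl⟩ := exists_oracleRec h
    obtain ⟨h, -, hh⟩ := M.acceptable (fun X n => (Part.some n.unpair.2).bind (F X))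
      (.comp hF .right)
    refine ⟨h 0, ?_⟩
    funext x
    rw [hh]
    simp
  · rintro ⟨i, rfl⟩
    have h1 := M.uniform.recursiveIn X
    have h2 : Nat.RecursiveIn {chi X} (fun x => Part.some (Nat.pair i x)) := by
      have h3 : Nat.Partrec (fun x => Part.some (Nat.pair i x)) :=
        Nat.Partrec.of_primrec (f := fun x => Nat.pair i x)
          (by simpa using (Nat.Primrec.pair (Nat.Primrec.const i) Nat.Primrec.id))
      exact h3.recursiveIn
    refine (Nat.RecursiveIn.comp h1 h2).of_eq fun x => ?_
    simp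

end Pool.Agent.H696R2.NH
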