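import Pool.Agent.H696R2.NH.Defs
import Pool.Agent.Helper223.Tools

set_option autoImplicit false

namespace Pool.Agent.H696R2.NH

open Pool.Agent.Helper223

/-- the prefix of `X` of length `m` -/
def pre (X : ℕ → Bool) (m : ℕ) : List Bool := (List.range m).map X

@[simp] theorem pre_length (X : ℕ → Bool) (m : ℕ) : (pre X m).length = m := by simp [pre]

theorem pre_getElem? (X : ℕ → Bool) (m j : ℕ) (h : j < m) : (pre X m)[j]? = some (X j) := by
  simp [pre, h]

theorem pre_prefix (X : ℕ → Bool) {m m' : ℕ} (h : m ≤ m') : pre X m <+: pre X m' := by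
  obtain ⟨d, rfl⟩ := Nat.exists_eq_add_of_le h
  rw [pre, pre, List.range_add, List.map_append]
  exact List.prefix_append _ _

/-- `X` extends `τ` -/
def Ext (τ : List Bool) (X : ℕ → Bool) : Prop := τ = pre X τ.length

theorem Ext.get {τ : List Bool} {X : ℕ → Bool} (h : Ext τ X) {j : ℕ} {b : Bool}
    (hj : τ[j]? = some b) : X j = b := by
  have hlt : j < τ.length := by
    by_contra hc
    rw [List.getElem?_eq_none (by omega)] at hj
    cases hj
  rw [h, pre_getElem? X _ _ hlt] at hj
  exact Option.some.inj hj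

theorem ext_pre (X : ℕ → Bool) (m : ℕ) : Ext (pre X m) X := by
  unfold Ext; rw [pre_length]

theorem ext_of_get {τ : List Bool} {X : ℕ → Bool} (h : ∀ j b, τ[j]? = some b → X j = b) :
    Ext τ X := by
  unfold Ext
  apply List.ext_getElem?
  intro j
  by_cases hj : j < τ.length
  · rw [pre_getElem? X _ _ hj, List.getElem?_eq_getElem hj]
    rw [h j _ (List.getElem?_eq_getElem hj)]
  · rw [List.getElem?_eq_none (by omega), List.getElem?_eq_none (by simp; omega)]

theorem Ext.of_prefix {τ τ' : List Bool} {X : ℕ → Bool} (h : Ext τ' X) (hp : τ <+: τ') :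
    Ext τ X := by
  apply ext_of_get
  intro j b hj
  apply h.get
  obtain ⟨r, rfl⟩ := hp
  have hlt : j < τ.length := by
    by_contra hc
    rw [List.getElem?_eq_none (by omega)] at hj
    cases hj
  rw [List.getElem?_append_left hlt]
  exact hj

theorem Ext.prefix_pre {τ : List Bool} {X : ℕ → Bool} (h : Ext τ X) {m : ℕ}
    (hm : τ.length ≤ m) : τ <+: pre X m := by
  rw [h]
  exact pre_prefix X hm

/-- the sequence which continues `τ` by zeros -/
def pad (τ : List Bool) : ℕ → Bool := fun j => (τ[j]?).getD false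

theorem ext_pad (τ : List Bool) : Ext τ (pad τ) := by
  apply ext_of_get
  intro j b hj
  simp [pad, hj]

theorem pre_pad (τ : List Bool) (m : ℕ) :
    pre (pad τ) (τ.length + m) = τ ++ List.replicate m false := by
  apply List.ext_getElem?
  intro j
  by_cases hj : j < τ.length + m
  · rw [pre_getElem? _ _ _ hj]
    by_cases h2 : j < τ.length
    · rw [List.getElem?_append_left h2]
      simp [pad, h2]
    · rw [List.getElem?_append_right (by omega)]
      rw [List.getElem?_replicate]
      rw [if_pos (by omega)]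
      simp [pad, List.getElem?_eq_none (Nat.le_of_not_lt h2)]
  · rw [List.getElem?_eq_none (by simp; omega), List.getElem?_eq_none (by simp; omega)]

/-- finite information about a functional -/
structure IsHat (F : (ℕ → Bool) → ℕ →. ℕ) (Fh : List Bool → ℕ →. ℕ) : Prop where
  part : Partrec₂ Fh
  sound : ∀ τ X n y, Ext τ X → y ∈ Fh τ n → y ∈ F X n
  mono : ∀ τ τ' n y, τ <+: τ' → y ∈ Fh τ n → y ∈ Fh τ' n
  complete : ∀ X n y, y ∈ F X n → ∃ m, y ∈ Fh (pre X m) n

theorem hat {F : (ℕ → Bool) → ℕ →. ℕ} (hF : OracleRec F) : ∃ Fh, IsHat F Fh := by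
  induction hF with
  | zero =>
    refine ⟨fun _ _ => Part.some 0, ?_, ?_, ?_, ?_⟩
    · exact (Computable.const 0).partrec
    · intro τ X n y _ h; exact h
    · intro τ τ' n y _ h; exact h
    · intro X n y h; exact ⟨0, h⟩
  | succ =>
    refine ⟨fun _ n => Part.some (n + 1), ?_, ?_, ?_, ?_⟩
    · exact (Computable.succ.comp Computable.snd).partrec
    · intro τ X n y _ h; exact h
    · intro τ τ' n y _ h; exact h
    · intro X n y h; exact ⟨0, h⟩
  | left =>
    refine ⟨fun _ n => Part.some n.unpair.1, ?_, ?_, ?_, ?_⟩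
    · exact (comp_unpair1.comp Computable.snd).partrec
    · intro τ X n y _ h; exact h
    · intro τ τ' n y _ h; exact h
    · intro X n y h; exact ⟨0, h⟩
  | right =>
    refine ⟨fun _ n => Part.some n.unpair.2, ?_, ?_, ?_, ?_⟩
    · exact (comp_unpair2.comp Computable.snd).partrec
    · intro τ X n y _ h; exact h
    · intro τ τ' n y _ h; exact h
    · intro X n y h; exact ⟨0, h⟩
  | query =>
    refine ⟨fun τ n => ((τ[n]?).map Bool.toNat : Option ℕ), ?_, ?_, ?_, ?_⟩
    · refine Computable.ofOption (f := fun p : List Bool × ℕ => (p.1[p.2]?).map Bool.toNat) ?_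
      refine Computable.option_map (f := fun p : List Bool × ℕ => p.1[p.2]?)
        (g := fun _ b => Bool.toNat b) Computable.list_getElem? ?_
      exact ((Primrec.dom_finite Bool.toNat).to_comp).comp Computable.snd
    · intro τ X n y hX h
      simp only [Part.mem_coe, Option.mem_def, Option.map_eq_some_iff] at h
      obtain ⟨b, hb, rfl⟩ := h
      rw [hX.get hb]
      exact Part.mem_some _
    · intro τ τ' n y hp h
      simp only [Part.mem_coe, Option.mem_def, Option.map_eq_some_iff] at h ⊢
      obtain ⟨b, hb, rfl⟩ := h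
      refine ⟨b, ?_, rfl⟩
      obtain ⟨r, rfl⟩ := hp
      have hlt : n < τ.length := by
        by_contra hc
        rw [List.getElem?_eq_none (by omega)] at hb
        cases hb
      rw [List.getElem?_append_left hlt]
      exact hb
    · intro X n y h
      refine ⟨n + 1, ?_⟩
      rw [pre_getElem? X _ _ (Nat.lt_succ_self n)]
      simpa using h
  | pair hf hg ihf ihg =>
    obtain ⟨Fh, hF⟩ := ihf
    obtain ⟨Gh, hG⟩ := ihg
    refine ⟨fun τ n => (Fh τ n).bind fun a => (Gh τ n).map fun b => Nat.pair a b, ?_, ?_, ?_, ?_⟩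
    · refine Partrec.bind (g := fun (p : List Bool × ℕ) a => (Gh p.1 p.2).map fun b => Nat.pair a b)
        hF.part ?_
      refine Partrec.map (f := fun q : (List Bool × ℕ) × ℕ => Gh q.1.1 q.1.2)
        (g := fun q b => Nat.pair q.2 b) (hG.part.comp (Computable.fst.comp Computable.fst)
          (Computable.snd.comp Computable.fst)) ?_
      exact (Primrec₂.natPair.to_comp).comp (Computable.snd.comp Computable.fst) Computable.snd
    · intro τ X n y hX h
      simp only [Part.mem_bind_iff, Part.mem_map_iff] at h ⊢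
      obtain ⟨a, ha, b, hb, rfl⟩ := h
      exact ⟨a, hF.sound _ _ _ _ hX ha, b, hG.sound _ _ _ _ hX hb, rfl⟩
    · intro τ τ' n y hp h
      simp only [Part.mem_bind_iff, Part.mem_map_iff] at h ⊢
      obtain ⟨a, ha, b, hb, rfl⟩ := h
      exact ⟨a, hF.mono _ _ _ _ hp ha, b, hG.mono _ _ _ _ hp hb, rfl⟩
    · intro X n y h
      simp only [Part.mem_bind_iff, Part.mem_map_iff] at h ⊢
      obtain ⟨a, ha, b, hb, rfl⟩ := h
      obtain ⟨m1, h1⟩ := hF.complete _ _ _ ha
      obtain ⟨m2, h2⟩ := hG.complete _ _ _ hb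
      exact ⟨max m1 m2, a, hF.mono _ _ _ _ (pre_prefix X (le_max_left _ _)) h1, b,
        hG.mono _ _ _ _ (pre_prefix X (le_max_right _ _)) h2, rfl⟩
  | comp hf hg ihf ihg =>
    obtain ⟨Fh, hF⟩ := ihf
    obtain ⟨Gh, hG⟩ := ihg
    refine ⟨fun τ n => (Gh τ n).bind (Fh τ), ?_, ?_, ?_, ?_⟩
    · refine Partrec.bind (g := fun (p : List Bool × ℕ) a => Fh p.1 a) hG.part ?_
      exact hF.part.comp (Computable.fst.comp Computable.fst) Computable.snd
    · intro τ X n y hX h
      simp only [Part.mem_bind_iff] at h ⊢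
      obtain ⟨a, ha, hb⟩ := h
      exact ⟨a, hG.sound _ _ _ _ hX ha, hF.sound _ _ _ _ hX hb⟩
    · intro τ τ' n y hp h
      simp only [Part.mem_bind_iff] at h ⊢
      obtain ⟨a, ha, hb⟩ := h
      exact ⟨a, hG.mono _ _ _ _ hp ha, hF.mono _ _ _ _ hp hb⟩
    · intro X n y h
      simp only [Part.mem_bind_iff] at h ⊢
      obtain ⟨a, ha, hb⟩ := h
      obtain ⟨m1, h1⟩ := hG.complete _ _ _ ha
      obtain ⟨m2, h2⟩ := hF.complete _ _ _ hb
      exact ⟨max m1 m2, a, hG.mono _ _ _ _ (pre_prefix X (le_max_left _ _)) h1,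
        hF.mono _ _ _ _ (pre_prefix X (le_max_right _ _)) h2⟩
  | @prec f g hf hg ihf ihg =>
    obtain ⟨Fh, hF⟩ := ihf
    obtain ⟨Gh, hG⟩ := ihg
    refine ⟨fun τ p => Nat.rec (Fh τ p.unpair.1)
        (fun y IH => IH.bind fun i => Gh τ (Nat.pair p.unpair.1 (Nat.pair y i))) p.unpair.2,
        ?_, ?_, ?_, ?_⟩
    · refine Partrec.nat_rec (f := fun q : List Bool × ℕ => q.2.unpair.2)
        (g := fun q : List Bool × ℕ => Fh q.1 q.2.unpair.1)
        (h := fun (q : List Bool × ℕ) (r : ℕ × ℕ) =>
          Gh q.1 (Nat.pair q.2.unpair.1 (Nat.pair r.1 r.2))) ?_ ?_ ?_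
      · exact comp_unpair2.comp Computable.snd
      · exact hF.part.comp Computable.fst (comp_unpair1.comp Computable.snd)
      · refine hG.part.comp (Computable.fst.comp Computable.fst) ?_
        refine (Primrec₂.natPair.to_comp).comp
          (comp_unpair1.comp (Computable.snd.comp Computable.fst)) ?_
        exact (Primrec₂.natPair.to_comp).comp (Computable.fst.comp Computable.snd)
          (Computable.snd.comp Computable.snd)
    · intro τ X p y hX
      revert y
      show ∀ y, y ∈ (Nat.rec (Fh τ p.unpair.1)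
        (fun y IH => IH.bind fun i => Gh τ (Nat.pair p.unpair.1 (Nat.pair y i))) p.unpair.2 :
          Part ℕ) → y ∈ (Nat.rec (f X p.unpair.1)
        (fun y IH => IH.bind fun i => g X (Nat.pair p.unpair.1 (Nat.pair y i))) p.unpair.2 : Part ℕ)
      generalize p.unpair.2 = k
      induction k with
      | zero => intro y h; exact hF.sound _ _ _ _ hX h
      | succ k ih =>
        intro y h
        simp only [Part.mem_bind_iff] at h ⊢
        obtain ⟨a, ha, hb⟩ := h
        exact ⟨a, ih _ ha, hG.sound _ _ _ _ hX hb⟩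
    · intro τ τ' p y hp
      revert y
      show ∀ y, y ∈ (Nat.rec (Fh τ p.unpair.1)
        (fun y IH => IH.bind fun i => Gh τ (Nat.pair p.unpair.1 (Nat.pair y i))) p.unpair.2 :
          Part ℕ) → y ∈ (Nat.rec (Fh τ' p.unpair.1)
        (fun y IH => IH.bind fun i => Gh τ' (Nat.pair p.unpair.1 (Nat.pair y i))) p.unpair.2 :
          Part ℕ)
      generalize p.unpair.2 = k
      induction k with
      | zero => intro y h; exact hF.mono _ _ _ _ hp h
      | succ k ih =>
        intro y h
        simp only [Part.mem_bind_iff] at h ⊢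
        obtain ⟨a, ha, hb⟩ := h
        exact ⟨a, ih _ ha, hG.mono _ _ _ _ hp hb⟩
    · intro X p y
      revert y
      have key : ∀ k y, y ∈ (Nat.rec (f X p.unpair.1)
        (fun y IH => IH.bind fun i => g X (Nat.pair p.unpair.1 (Nat.pair y i))) k : Part ℕ) →
        ∃ m, ∀ m' ≥ m, y ∈ (Nat.rec (Fh (pre X m') p.unpair.1)
        (fun y IH => IH.bind fun i => Gh (pre X m') (Nat.pair p.unpair.1 (Nat.pair y i))) k :
          Part ℕ) := by
        intro k
        induction k with
        | zero =>
          intro y h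
          obtain ⟨m, hm⟩ := hF.complete _ _ _ h
          exact ⟨m, fun m' hm' => hF.mono _ _ _ _ (pre_prefix X hm') hm⟩
        | succ k ih =>
          intro y h
          simp only [Part.mem_bind_iff] at h
          obtain ⟨a, ha, hb⟩ := h
          obtain ⟨m1, h1⟩ := ih _ ha
          obtain ⟨m2, h2⟩ := hG.complete _ _ _ hb
          refine ⟨max m1 m2, fun m' hm' => ?_⟩
          simp only [Part.mem_bind_iff]
          exact ⟨a, h1 m' (le_trans (le_max_left _ _) hm'),
            hG.mono _ _ _ _ (pre_prefix X (le_trans (le_max_right _ _) hm')) h2⟩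
      intro y h
      obtain ⟨m, hm⟩ := key _ y h
      exact ⟨m, hm m le_rfl⟩
  | @rfind f hf ihf =>
    obtain ⟨Fh, hF⟩ := ihf
    refine ⟨fun τ a => Nat.rfind fun n => (Fh τ (Nat.pair a n)).map fun m => decide (m = 0),
      ?_, ?_, ?_, ?_⟩
    · refine Partrec.rfind (p := fun (q : List Bool × ℕ) n =>
        (Fh q.1 (Nat.pair q.2 n)).map fun m => decide (m = 0)) ?_
      refine Partrec.map (f := fun r : (List Bool × ℕ) × ℕ => Fh r.1.1 (Nat.pair r.1.2 r.2))
        (g := fun _ m => decide (m = 0)) ?_ ?_
      · refine hF.part.comp (Computable.fst.comp Computable.fst) ?_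
        exact (Primrec₂.natPair.to_comp).comp (Computable.snd.comp Computable.fst) Computable.snd
      · exact comp_dec_eq Computable.snd (Computable.const 0)
    · intro τ X a y hX h
      rw [Nat.mem_rfind] at h ⊢
      refine ⟨?_, fun {m} hm => ?_⟩
      · have := h.1
        simp only [Part.mem_map_iff] at this ⊢
        obtain ⟨b, hb, hb2⟩ := this
        exact ⟨b, hF.sound _ _ _ _ hX hb, hb2⟩
      · have := h.2 hm
        simp only [Part.mem_map_iff] at this ⊢
        obtain ⟨b, hb, hb2⟩ := this
        exact ⟨b, hF.sound _ _ _ _ hX hb, hb2⟩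
    · intro τ τ' a y hp h
      rw [Nat.mem_rfind] at h ⊢
      refine ⟨?_, fun {m} hm => ?_⟩
      · have := h.1
        simp only [Part.mem_map_iff] at this ⊢
        obtain ⟨b, hb, hb2⟩ := this
        exact ⟨b, hF.mono _ _ _ _ hp hb, hb2⟩
      · have := h.2 hm
        simp only [Part.mem_map_iff] at this ⊢
        obtain ⟨b, hb, hb2⟩ := this
        exact ⟨b, hF.mono _ _ _ _ hp hb, hb2⟩
    · intro X a y h
      rw [Nat.mem_rfind] at h
      have h1 : ∀ m, ∃ M, m ≤ y → (decide (m = y)) ∈
          (Fh (pre X M) (Nat.pair a m)).map fun m => decide (m = 0) := by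
        intro m
        by_cases hm : m ≤ y
        · rcases Nat.lt_or_eq_of_le hm with h2 | h2
          · have h3 := h.2 h2
            simp only [Part.mem_map_iff] at h3
            obtain ⟨b, hb, hb2⟩ := h3
            obtain ⟨M, hM⟩ := hF.complete _ _ _ hb
            refine ⟨M, fun _ => ?_⟩
            simp only [Part.mem_map_iff]
            refine ⟨b, hM, ?_⟩
            rw [hb2]
            simp [Nat.ne_of_lt h2]
          · subst h2
            have h3 := h.1
            simp only [Part.mem_map_iff] at h3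
            obtain ⟨b, hb, hb2⟩ := h3
            obtain ⟨M, hM⟩ := hF.complete _ _ _ hb
            refine ⟨M, fun _ => ?_⟩
            simp only [Part.mem_map_iff]
            refine ⟨b, hM, ?_⟩
            rw [hb2]
            simp
        · exact ⟨0, fun h => absurd h hm⟩
      choose M hM using h1
      obtain ⟨N, hN⟩ : ∃ N, ∀ m ≤ y, M m ≤ N :=
        ⟨(Finset.range (y + 1)).sup M, fun m hm =>
          Finset.le_sup (f := M) (Finset.mem_range.2 (Nat.lt_succ_of_le hm))⟩
      have h2 : ∀ m ≤ y, (decide (m = y)) ∈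
          (Fh (pre X N) (Nat.pair a m)).map fun m => decide (m = 0) := by
        intro m hm
        have h3 := hM m hm
        simp only [Part.mem_map_iff] at h3 ⊢
        obtain ⟨b, hb, hb2⟩ := h3
        exact ⟨b, hF.mono _ _ _ _ (pre_prefix X (hN m hm)) hb, hb2⟩
      refine ⟨N, ?_⟩
      rw [Nat.mem_rfind]
      refine ⟨?_, fun {m} hm => ?_⟩
      · have := h2 y le_rfl
        simpa using this
      · have := h2 m (le_of_lt hm)
        simpa [Nat.ne_of_lt hm] using this

/-- Partial recursive functions are oracle functionals which ignore the oracle. -/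
theorem OracleRec.of_partrec {f : ℕ →. ℕ} (h : Nat.Partrec f) : OracleRec (fun _ n => f n) := by
  induction h with
  | zero => exact .zero
  | succ => exact .succ
  | left => exact .left
  | right => exact .right
  | pair _ _ ihf ihg =>
    have := OracleRec.pair ihf ihg
    convert this using 3
    simp [Seq.seq, Part.bind_map, Part.map_eq_map]
  | comp _ _ ihf ihg => exact OracleRec.comp ihf ihg
  | prec _ _ ihf ihg => exact OracleRec.prec ihf ihg
  | rfind _ ihf => exact OracleRec.rfind ihf

/-- Oracle functionals with a computable oracle are partial recursive. -/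
theorem OracleRec.partrec {F : (ℕ → Bool) → ℕ →. ℕ} (h : OracleRec F) {X : ℕ → Bool}
    (hX : Computable X) : Nat.Partrec (F X) := by
  induction h with
  | zero => exact .zero
  | succ => exact .succ
  | left => exact .left
  | right => exact .right
  | query =>
    have h1 : Computable fun n => (X n).toNat := (Primrec.dom_finite Bool.toNat).to_comp.comp hX
    exact Partrec.nat_iff.1 h1.partrec
  | pair _ _ ihf ihg =>
    refine (Nat.Partrec.pair ihf ihg).of_eq fun n => ?_
    simp [Seq.seq, Part.bind_map, Part.map_eq_map]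
  | comp _ _ ihf ihg => exact (Nat.Partrec.comp ihf ihg)
  | prec _ _ ihf ihg => exact (Nat.Partrec.prec ihf ihg)
  | rfind _ ihf => exact (Nat.Partrec.rfind ihf)

end Pool.Agent.H696R2.NH
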