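import Pool.Agent.H696R2.NH.Ready
import Pool.Agent.H696R2.NH.Constr

set_option autoImplicit false

namespace Pool.Agent.H696R2.NH

open Pool.Agent.Helper223
open Nat.Partrec (Code)

theorem comp_get {α σ : Type} [Primcodable α] [Primcodable σ] {f : α →. σ} (hf : Partrec f)
    (H : ∀ a, (f a).Dom) : Computable fun a => (f a).get (H a) :=
  hf.of_eq fun a => (Part.some_get (H a)).symm

/-- the answers at stage `s` given by the delayed view -/
def ans (K : ℕ × ℕ × ℕ × List Bool → Option (List Bool × ℕ)) (q : Code × ℕ × ℕ × List Bool)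
    (x s : ℕ) : Option ℕ :=
  (K (q.2.1, x, s, Sc q.1 q.2.2.1 q.2.2.2 s)).map Prod.snd

theorem comp_ans {K : ℕ × ℕ × ℕ × List Bool → Option (List Bool × ℕ)} (hK : Computable K)
    {α : Type} [Primcodable α] {q : α → Code × ℕ × ℕ × List Bool} {x s : α → ℕ}
    (hq : Computable q) (hx : Computable x) (hs : Computable s) :
    Computable fun a => ans K (q a) (x a) (s a) := by
  unfold ans
  refine Computable.option_map (f := fun a => K ((q a).2.1, x a, s a,
    Sc (q a).1 (q a).2.2.1 (q a).2.2.2 (s a))) (g := fun _ (z : List Bool × ℕ) => z.2) ?_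
    (Computable.snd.comp Computable.snd)
  refine hK.comp (Computable.pair (Computable.fst.comp (Computable.snd.comp hq))
    (Computable.pair hx (Computable.pair hs ?_)))
  exact comp_Sc (Computable.fst.comp hq)
    (Computable.fst.comp (Computable.snd.comp (Computable.snd.comp hq)))
    (Computable.snd.comp (Computable.snd.comp (Computable.snd.comp hq))) hs

/-- the bound `g` -/
theorem exists_g (M : RelBlum) {K : ℕ × ℕ × ℕ × List Bool → Option (List Bool × ℕ)}
    (hK : Computable K) : ∃ g : ℕ → ℕ → ℕ, Computable₂ g ∧
    ∀ q : Code × ℕ × ℕ × List Bool, ∃ i' N,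
      (∀ x, M.φ i' emptyO x = Nat.rfindOpt (fun s => ans K q x (x + s))) ∧
      ∀ x ≥ N, ∀ y j, j ≤ y → (ans K q x (x + j)).isSome = true →
        ∃ z ∈ M.Φ i' emptyO x, z ≤ g x y := by
  obtain ⟨d, hd, hd1⟩ := comp_cost M
  let dp : ℕ → Code × ℕ × ℕ × List Bool := fun p =>
    (Encodable.decode p : Option (Code × ℕ × ℕ × List Bool)).getD (Nat.Partrec.Code.zero, 0, 0, [])
  have hdp : Computable dp := Computable.option_getD Computable.decode (Computable.const _)
  have hdpe : ∀ q, dp (Encodable.encode q) = q := by
    intro q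
    show (Encodable.decode (Encodable.encode q) : Option (Code × ℕ × ℕ × List Bool)).getD
      (Nat.Partrec.Code.zero, 0, 0, []) = q
    rw [Encodable.encodek]
    rfl
  let ψ : ℕ →. ℕ := fun n => Nat.rfindOpt (fun s => ans K (dp n.unpair.1) n.unpair.2
    (n.unpair.2 + s))
  have hψ : Partrec ψ := by
    refine Partrec.rfindOpt (f := fun (n s : ℕ) => ans K (dp n.unpair.1) n.unpair.2
      (n.unpair.2 + s)) ?_
    refine comp_ans hK (hdp.comp (comp_unpair1.comp Computable.fst))
      (comp_unpair2.comp Computable.fst) ?_
    exact (Primrec.nat_add.to_comp).comp (comp_unpair2.comp Computable.fst) Computable.snd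
  obtain ⟨h, hh, hh1⟩ := M.acceptable (fun _ n => ψ n) (OracleRec.of_partrec (Partrec.nat_iff.1 hψ))
  have hφ : ∀ p x, M.φ (h p) emptyO x = Nat.rfindOpt (fun s => ans K (dp p) x (x + s)) := by
    intro p x
    rw [hh1]
    show Nat.rfindOpt (fun s => ans K (dp (Nat.pair p x).unpair.1) (Nat.pair p x).unpair.2
      ((Nat.pair p x).unpair.2 + s)) = _
    rw [Nat.unpair_pair]
  let found : ℕ × ℕ × ℕ → Bool := fun a =>
    (List.range (a.2.2 + 1)).any (fun j => (ans K (dp a.1) a.2.1 (a.2.1 + j)).isSome)
  have hfound : Computable found := by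
    refine comp_any (f := fun a : ℕ × ℕ × ℕ => List.range (a.2.2 + 1))
      (g := fun a j => (ans K (dp a.1) a.2.1 (a.2.1 + j)).isSome) ?_ ?_
    · exact (Primrec.list_range.to_comp).comp (Computable.succ.comp
        (Computable.snd.comp Computable.snd))
    · refine (Primrec.option_isSome.to_comp).comp (comp_ans hK
        (hdp.comp (Computable.fst.comp Computable.fst))
        (Computable.fst.comp (Computable.snd.comp Computable.fst)) ?_)
      exact (Primrec.nat_add.to_comp).comp
        (Computable.fst.comp (Computable.snd.comp Computable.fst)) Computable.snd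
  let P : ℕ × ℕ × ℕ → ℕ → Bool := fun a z => (! found a) || d (h a.1, a.2.1, z)
  have hP : Computable₂ P := by
    refine (Primrec.or.to_comp).comp ((Primrec.not.to_comp).comp (hfound.comp Computable.fst)) ?_
    exact hd.comp (Computable.pair (hh.comp (Computable.fst.comp Computable.fst))
      (Computable.pair (Computable.fst.comp (Computable.snd.comp Computable.fst)) Computable.snd))
  have H : ∀ a, ∃ z, P a z = true := by
    rintro ⟨p, x, y⟩
    cases hf : found (p, x, y) with
    | false => exact ⟨0, by show ((! found (p, x, y)) || _) = true; rw [hf]; rfl⟩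
    | true =>
      have h1 : (List.range (y + 1)).any (fun j => (ans K (dp p) x (x + j)).isSome) = true := hf
      rw [List.any_eq_true] at h1
      obtain ⟨j, _, hj⟩ := h1
      obtain ⟨v, hv⟩ := Option.isSome_iff_exists.1 hj
      have h2 : (M.φ (h p) emptyO x).Dom := by
        rw [hφ]
        exact Nat.rfindOpt_dom.2 ⟨j, v, hv⟩
      rw [← M.dom] at h2
      obtain ⟨z, hz⟩ := Part.dom_iff_mem.1 h2
      refine ⟨z, ?_⟩
      show ((! found (p, x, y)) || d (h p, x, z)) = true
      rw [(hd1 _ _ _).2 hz, Bool.or_true]
  have hfind : Computable fun a => Nat.find (H a) := comp_find P hP H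
  refine ⟨fun x y => maxBelow (fun p => Nat.find (H (p, x, y))) (x + 1), ?_, ?_⟩
  · refine comp_maxBelow (f := fun (a : ℕ × ℕ) p => Nat.find (H (p, a.1, a.2))) ?_
      (Computable.succ.comp Computable.fst)
    exact hfind.comp (Computable.pair Computable.snd (Computable.pair
      (Computable.fst.comp Computable.fst) (Computable.snd.comp Computable.fst)))
  · intro q
    refine ⟨h (Encodable.encode q), Encodable.encode q, ?_, ?_⟩
    · intro x
      rw [hφ, hdpe]
    · intro x hx y j hj hsome
      have hf : found (Encodable.encode q, x, y) = true := by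
        show (List.range (y + 1)).any
          (fun j => (ans K (dp (Encodable.encode q)) x (x + j)).isSome) = true
        rw [List.any_eq_true]
        refine ⟨j, List.mem_range.2 (by omega), ?_⟩
        rw [hdpe]
        exact hsome
      have h1 : P (Encodable.encode q, x, y) (Nat.find (H (Encodable.encode q, x, y))) = true :=
        Nat.find_spec (H (Encodable.encode q, x, y))
      have h2 : ((! found (Encodable.encode q, x, y)) || d (h (Encodable.encode q), x,
        Nat.find (H (Encodable.encode q, x, y)))) = true := h1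
      rw [hf, Bool.not_true, Bool.false_or, hd1] at h2
      refine ⟨_, h2, ?_⟩
      exact le_maxBelow (fun p => Nat.find (H (p, x, y))) (by omega)

section
variable (K : ℕ × ℕ × ℕ × List Bool → Option (List Bool × ℕ)) (L : ℕ × ℕ × ℕ → Option ℕ)
  (A : ℕ → Bool) (t' : ℕ → ℕ)

/-- the action for the requirement: if program `i` with oracle `B` computes `A` then the answers
are correct -/
def evR (i k : ℕ) (ρ' : List Bool) : Option (List Bool) :=
  (List.range (k + 1)).findSome? (fun x => (K (i, x, k, ρ')).bind
    (fun z => cond (decide (z.2 = (A x).toNat)) none (some z.1)))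

/-- the action for the requirement: if program `e` computes `B` then it has cost above `t'` almost
everywhere -/
def evD (e : ℕ) (ρ ρ' : List Bool) : Option (List Bool) :=
  (List.range ρ'.length).findSome? (fun m => cond (decide (ρ.length ≤ m))
    ((ρ'[m]?).bind (fun b => cond (decide (L (e, m, t' m) = some b.toNat))
      (some (ρ'.take m ++ [!b])) none)) none)

/-- the actions -/
def Ev (a : ℕ × ℕ × List Bool × List Bool) : Option (List Bool) :=
  cond (decide (a.1 % 2 = 0)) (evD L t' (a.1 / 2) a.2.2.1 a.2.2.2)
    (evR K A (a.1 / 2) a.2.1 a.2.2.2)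

variable {K L A t'}

theorem comp_Ev (hK : Computable K) (hL : Computable L) (hA : Computable A)
    (ht : Computable t') : Computable (Ev K L A t') := by
  have h1 : Computable fun a : ℕ × ℕ × List Bool × List Bool => a.1 := Computable.fst
  have h2 : Computable fun a : ℕ × ℕ × List Bool × List Bool => a.2.1 :=
    Computable.fst.comp Computable.snd
  have h3 : Computable fun a : ℕ × ℕ × List Bool × List Bool => a.2.2.1 :=
    Computable.fst.comp (Computable.snd.comp Computable.snd)
  have h4 : Computable fun a : ℕ × ℕ × List Bool × List Bool => a.2.2.2 :=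
    Computable.snd.comp (Computable.snd.comp Computable.snd)
  have hdiv : Computable fun a : ℕ × ℕ × List Bool × List Bool => a.1 / 2 :=
    (Primrec.nat_div.to_comp).comp h1 (Computable.const 2)
  unfold Ev
  refine Computable.cond ?_ ?_ ?_
  · exact comp_dec_eq ((Primrec.nat_mod.to_comp).comp h1 (Computable.const 2)) (Computable.const 0)
  · unfold evD
    refine comp_findSome (f := fun a : ℕ × ℕ × List Bool × List Bool => List.range a.2.2.2.length)
      (g := fun a m => cond (decide (a.2.2.1.length ≤ m))
        ((a.2.2.2[m]?).bind (fun b => cond (decide (L (a.1 / 2, m, t' m) = some b.toNat))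
          (some (a.2.2.2.take m ++ [!b])) none)) none) ?_ ?_
    · exact (Primrec.list_range.to_comp).comp (Computable.list_length.comp h4)
    · refine Computable.cond ?_ ?_ (Computable.const none)
      · exact (Primrec.nat_le.decide.to_comp).comp
          (Computable.list_length.comp (h3.comp Computable.fst)) Computable.snd
      · refine Computable.option_bind (f := fun p : (ℕ × ℕ × List Bool × List Bool) × ℕ =>
          p.1.2.2.2[p.2]?) (g := fun p b => cond (decide (L (p.1.1 / 2, p.2, t' p.2) =
            some b.toNat)) (some (p.1.2.2.2.take p.2 ++ [!b])) none) ?_ ?_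
        · exact Computable.list_getElem?.comp (h4.comp Computable.fst) Computable.snd
        · refine Computable.cond ?_ ?_ (Computable.const none)
          · refine comp_dec_eq (hL.comp ?_) ?_
            · refine Computable.pair (hdiv.comp (Computable.fst.comp Computable.fst))
                (Computable.pair (Computable.snd.comp Computable.fst)
                  (ht.comp (Computable.snd.comp Computable.fst)))
            · exact Computable.option_some.comp
                (((Primrec.dom_finite Bool.toNat).to_comp).comp Computable.snd)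
          · refine Computable.option_some.comp (Computable.list_append.comp
              (comp_take (h4.comp (Computable.fst.comp Computable.fst))
                (Computable.snd.comp Computable.fst)) ?_)
            exact Computable.list_cons.comp ((Primrec.not.to_comp).comp Computable.snd)
              (Computable.const [])
  · unfold evR
    refine comp_findSome (f := fun a : ℕ × ℕ × List Bool × List Bool => List.range (a.2.1 + 1))
      (g := fun a x => (K (a.1 / 2, x, a.2.1, a.2.2.2)).bind
        (fun z => cond (decide (z.2 = (A x).toNat)) none (some z.1))) ?_ ?_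
    · exact (Primrec.list_range.to_comp).comp (Computable.succ.comp h2)
    · refine Computable.option_bind (f := fun p : (ℕ × ℕ × List Bool × List Bool) × ℕ =>
        K (p.1.1 / 2, p.2, p.1.2.1, p.1.2.2.2))
        (g := fun p z => cond (decide (z.2 = (A p.2).toNat)) none (some z.1)) ?_ ?_
      · exact hK.comp (Computable.pair (hdiv.comp Computable.fst) (Computable.pair Computable.snd
          (Computable.pair (h2.comp Computable.fst) (h4.comp Computable.fst))))
      · refine Computable.cond ?_ (Computable.const none) ?_
        · refine comp_dec_eq (Computable.snd.comp Computable.snd) ?_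
          exact ((Primrec.dom_finite Bool.toNat).to_comp).comp
            (hA.comp (Computable.snd.comp Computable.fst))
        · exact Computable.option_some.comp (Computable.fst.comp Computable.snd)

theorem evR_some {i k : ℕ} {ρ' τ : List Bool} (h : evR K A i k ρ' = some τ) :
    ∃ x v, K (i, x, k, ρ') = some (τ, v) ∧ v ≠ (A x).toNat := by
  obtain ⟨x, _, hx⟩ := List.exists_of_findSome?_eq_some h
  obtain ⟨⟨κ, v⟩, hz, hz2⟩ := Option.bind_eq_some_iff.1 hx
  by_cases hv : v = (A x).toNat
  · simp [hv] at hz2
  · simp [hv] at hz2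
    subst hz2
    exact ⟨x, v, hz, hv⟩

theorem evR_none {i k : ℕ} {ρ' : List Bool} (h : evR K A i k ρ' = none) {x : ℕ} (hx : x ≤ k)
    {κ : List Bool} {v : ℕ} (hv : K (i, x, k, ρ') = some (κ, v)) : v = (A x).toNat := by
  unfold evR at h
  rw [List.findSome?_eq_none_iff] at h
  have h1 := h x (List.mem_range.2 (by omega))
  rw [hv, Option.bind_some] at h1
  by_contra hne
  simp [hne] at h1

theorem evD_some {e : ℕ} {ρ ρ' τ : List Bool} (h : evD L t' e ρ ρ' = some τ) :
    ∃ m b, ρ.length ≤ m ∧ ρ'[m]? = some b ∧ L (e, m, t' m) = some b.toNat ∧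
      τ = ρ'.take m ++ [!b] := by
  obtain ⟨m, _, hm⟩ := List.exists_of_findSome?_eq_some h
  by_cases h1 : ρ.length ≤ m
  · simp only [h1, decide_true, cond_true] at hm
    obtain ⟨b, hb, hb2⟩ := Option.bind_eq_some_iff.1 hm
    by_cases h2 : L (e, m, t' m) = some b.toNat
    · simp only [h2, decide_true, cond_true, Option.some.injEq] at hb2
      exact ⟨m, b, h1, hb, h2, hb2.symm⟩
    · simp [h2] at hb2
  · simp [h1] at hm

theorem evD_none {e : ℕ} {ρ ρ' : List Bool} (h : evD L t' e ρ ρ' = none) {m : ℕ} {b : Bool}
    (hm : ρ.length ≤ m) (hb : ρ'[m]? = some b) : L (e, m, t' m) ≠ some b.toNat := by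
  unfold evD at h
  rw [List.findSome?_eq_none_iff] at h
  have hlt : m < ρ'.length := by
    by_contra hc
    rw [List.getElem?_eq_none (by omega)] at hb
    cases hb
  have h1 := h m (List.mem_range.2 hlt)
  intro h2
  rw [hb, Option.bind_some] at h1
  simp [hm, h2] at h1

theorem evOk (hK1 : ∀ i x s ρ κ v, K (i, x, s, ρ) = some (κ, v) → ρ <+: κ) :
    EvOk (Ev K L A t') := by
  intro n k ρ ρ' τ hp h
  unfold Ev at h
  by_cases hn : n % 2 = 0
  · simp only [hn, decide_true, cond_true] at h
    obtain ⟨m, b, hm, hb, _, rfl⟩ := evD_some h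
    refine List.IsPrefix.trans ?_ (List.prefix_append _ _)
    rw [List.prefix_take_iff]
    exact ⟨hp, hm⟩
  · simp only [hn, decide_false, cond_false] at h
    obtain ⟨x, v, hx, _⟩ := evR_some h
    exact hp.trans (hK1 _ _ _ _ _ _ hx)

end

theorem exists_L (M : RelBlum) : ∃ L : ℕ × ℕ × ℕ → Option ℕ, Computable L ∧
    ∀ e m t v, L (e, m, t) = some v ↔ (∃ y ≤ t, y ∈ M.Φ e emptyO m) ∧ v ∈ M.φ e emptyO m := by
  obtain ⟨d, hd, hd1⟩ := comp_cost M
  let f2 : ℕ × ℕ × ℕ → Bool := fun a => (List.range (a.2.2 + 1)).any (fun y => d (a.1, a.2.1, y))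
  have hf2 : Computable f2 := by
    refine comp_any (f := fun a : ℕ × ℕ × ℕ => List.range (a.2.2 + 1))
      (g := fun a y => d (a.1, a.2.1, y)) ?_ ?_
    · exact (Primrec.list_range.to_comp).comp (Computable.succ.comp
        (Computable.snd.comp Computable.snd))
    · exact hd.comp (Computable.pair (Computable.fst.comp Computable.fst) (Computable.pair
        (Computable.fst.comp (Computable.snd.comp Computable.fst)) Computable.snd))
  have hf2' : ∀ e m t, f2 (e, m, t) = true ↔ ∃ y ≤ t, y ∈ M.Φ e emptyO m := by
    intro e m t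
    show (List.range (t + 1)).any (fun y => d (e, m, y)) = true ↔ _
    rw [List.any_eq_true]
    constructor
    · rintro ⟨y, hy, hy2⟩
      exact ⟨y, by rw [List.mem_range] at hy; omega, (hd1 _ _ _).1 hy2⟩
    · rintro ⟨y, hy, hy2⟩
      exact ⟨y, List.mem_range.2 (by omega), (hd1 _ _ _).2 hy2⟩
  have hU : Partrec fun n : ℕ => M.φ n.unpair.1 emptyO n.unpair.2 :=
    Partrec.nat_iff.2 (M.uniform.partrec (Computable.const false))
  let F : ℕ × ℕ × ℕ →. Option ℕ := fun a => cond (f2 a)
    ((M.φ a.1 emptyO a.2.1).map some) (Part.some none)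
  have hF : Partrec F := by
    refine Partrec.cond hf2 ?_ (Computable.const none).partrec
    refine Partrec.map ?_ (Computable.option_some.comp Computable.snd)
    have h1 : Partrec fun a : ℕ × ℕ × ℕ => M.φ (Nat.pair a.1 a.2.1).unpair.1 emptyO
        (Nat.pair a.1 a.2.1).unpair.2 :=
      hU.comp ((Primrec₂.natPair.to_comp).comp Computable.fst
        (Computable.fst.comp Computable.snd))
    refine h1.of_eq fun a => ?_
    rw [Nat.unpair_pair]
  have hdom : ∀ a, (F a).Dom := by
    rintro ⟨e, m, t⟩
    show (cond (f2 (e, m, t)) ((M.φ e emptyO m).map some) (Part.some none)).Dom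
    cases h : f2 (e, m, t) with
    | false => trivial
    | true =>
      obtain ⟨y, _, hy⟩ := (hf2' e m t).1 h
      have h1 : (M.φ e emptyO m).Dom := by
        rw [← M.dom]; exact Part.dom_iff_mem.2 ⟨y, hy⟩
      exact h1
  refine ⟨fun a => (F a).get (hdom a), comp_get hF hdom, ?_⟩
  intro e m t v
  have h0 : (F (e, m, t)).get (hdom (e, m, t)) = some v ↔ some v ∈ F (e, m, t) := by
    rw [Part.get_eq_iff_mem]
  rw [h0]
  show some v ∈ cond (f2 (e, m, t)) ((M.φ e emptyO m).map some) (Part.some none) ↔ _
  cases h : f2 (e, m, t) with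
  | false =>
    have h1 : ¬ ∃ y ≤ t, y ∈ M.Φ e emptyO m := by
      rw [← hf2', h]; simp
    simp [h1]
  | true =>
    have h1 := (hf2' e m t).1 h
    simp only [cond_true, h1, true_and, Part.mem_map_iff, Option.some.injEq]
    constructor
    · rintro ⟨a, ha, rfl⟩; exact ha
    · intro h; exact ⟨v, h, rfl⟩

/-- **Main theorem.** -/
theorem main (M : RelBlum) : ∃ g : ℕ → ℕ → ℕ, Computable₂ g ∧
    ∀ A : ℕ → Bool, Computable A → ∀ t' : ℕ → ℕ, Computable t' →
      ∃ B : ℕ → Bool, Computable B ∧ M.CompAE emptyO B t' ∧
        ∀ t : ℕ → ℕ, M.CompIO emptyO A (fun x => g x (t x)) → M.CompIO B A t := by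
  obtain ⟨K, hK, hK1, hK2⟩ := exists_search M
  obtain ⟨L, hL, hL1⟩ := exists_L M
  obtain ⟨g, hg, hg1⟩ := exists_g M hK
  refine ⟨g, hg, fun A hA t' ht' => ?_⟩
  obtain ⟨c, B, hB, hcon⟩ := construction (Ev := Ev K L A t') (comp_Ev hK hL hA ht')
    (evOk (fun i x s ρ κ v h => (hK1 i x s ρ κ v h).1))
  refine ⟨B, hB, ?_, ?_⟩
  · -- complexity of `B`
    intro e he
    obtain ⟨b, hext, hcase⟩ := hcon (2 * e)
    have hmod : 2 * e % 2 = 0 := by omega
    have hdiv : 2 * e / 2 = e := by omega
    rcases hcase with ⟨k, ρ, ρ', h⟩ | ⟨hub, _, hnone⟩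
    · exfalso
      unfold Ev at h
      simp only [hmod, decide_true, cond_true, hdiv] at h
      obtain ⟨m, x, hm, hx, hLx, hb⟩ := evD_some h
      have h1 := (hL1 _ _ _ _).1 hLx
      have h2 := he m
      rw [h2] at h1
      have h3 : x.toNat = (B m).toNat := by simpa using h1.2
      have hbB : Ext b B := hext 0
      have hlt : m < ρ'.length := by
        by_contra hc
        rw [List.getElem?_eq_none (by omega)] at hx
        cases hx
      have h4 : b[m]? = some (!x) := by
        have hl : (ρ'.take m).length = m := by rw [List.length_take]; omega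
        rw [hb, List.getElem?_append_right (by omega), hl]
        simp
      have h5 := hbB.get h4
      rw [h5] at h3
      cases x <;> simp at h3
    · refine ⟨b.length, fun m hm => ?_⟩
      classical
      have hex : ∃ k, m < (Sc c (2 * e + 1) b k).length := by
        obtain ⟨k, hk⟩ := hub (m + 1)
        exact ⟨k, by omega⟩
      have hspec := Nat.find_spec hex
      obtain ⟨j, hj⟩ : ∃ j, Nat.find hex = j + 1 := by
        refine Nat.exists_eq_succ_of_ne_zero ?_
        intro h0
        rw [h0, Sc_zero] at hspec
        omega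
      rw [hj] at hspec
      have hmin : ¬ m < (Sc c (2 * e + 1) b j).length :=
        Nat.find_min hex (by omega)
      have h1 := hnone j
      unfold Ev at h1
      simp only [hmod, decide_true, cond_true, hdiv] at h1
      have hget : (Sc c (2 * e + 1) b (j + 1))[m]? = some (B m) := by
        have h2 := hext (j + 1)
        unfold Ext at h2
        rw [h2, pre_getElem? _ _ _ hspec]
      have h2 := evD_none h1 (Nat.le_of_not_lt hmin) hget
      have h3 : (M.φ e emptyO m).Dom := by rw [he m]; trivial
      rw [← M.dom] at h3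
      obtain ⟨y, hy⟩ := Part.dom_iff_mem.1 h3
      refine ⟨y, hy, ?_⟩
      by_contra hle
      apply h2
      rw [hL1]
      refine ⟨⟨y, Nat.le_of_not_lt hle, hy⟩, ?_⟩
      rw [he m]
      exact Part.mem_some _
  · -- the oracle `B` does not help
    intro t hIO i hi N
    by_contra hcontra
    have hle : ∀ x ≥ N, ∀ y ∈ M.Φ i B x, y ≤ t x := by
      intro x hx y hy
      by_contra hlt
      exact hcontra ⟨x, hx, y, hy, Nat.lt_of_not_le hlt⟩
    obtain ⟨b, hext, hcase⟩ := hcon (2 * i + 1)
    have hmod : (2 * i + 1) % 2 = 1 := by omega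
    have hdiv : (2 * i + 1) / 2 = i := by omega
    rcases hcase with ⟨k, ρ, ρ', h⟩ | ⟨_, hnone0, hnone⟩
    · unfold Ev at h
      simp only [hmod, one_ne_zero, decide_false, cond_false, hdiv] at h
      obtain ⟨x, v, hx, hne⟩ := evR_some h
      have h1 := (hK1 _ _ _ _ _ _ hx).2 B (hext 0)
      rw [hi x] at h1
      exact hne (by simpa using h1)
    · -- the answers are correct
      have hnone' : ∀ k, evR K A i k (Sc c (2 * i + 1 + 1) b k) = none := by
        intro k
        cases k with
        | zero =>
          have h := hnone0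
          unfold Ev at h
          simp only [hmod, one_ne_zero, decide_false, cond_false, hdiv] at h
          exact h
        | succ k =>
          have h := hnone k
          unfold Ev at h
          simp only [hmod, one_ne_zero, decide_false, cond_false, hdiv] at h
          exact h
      have hans : ∀ x s v, ans K (c, i, 2 * i + 1 + 1, b) x (x + s) = some v →
          v = (A x).toNat := by
        intro x s v hv
        unfold ans at hv
        obtain ⟨⟨κ, v'⟩, hz, rfl⟩ := Option.map_eq_some_iff.1 hv
        exact evR_none (hnone' (x + s)) (Nat.le_add_right x s) hz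
      have hready : ∀ x y, y ∈ M.Φ i B x →
          (ans K (c, i, 2 * i + 1 + 1, b) x (x + y)).isSome = true := by
        intro x y hy
        obtain ⟨κ, v, hv⟩ := hK2 i x (x + y) _ B y (hext (x + y)) hy (Nat.le_add_left y x)
        unfold ans
        rw [hv]
        rfl
      have hdom : ∀ x, ∃ y, y ∈ M.Φ i B x := by
        intro x
        have h1 : (M.φ i B x).Dom := by rw [hi x]; trivial
        rw [← M.dom] at h1
        exact Part.dom_iff_mem.1 h1
      obtain ⟨i', N', hi', hcost⟩ := hg1 (c, i, 2 * i + 1 + 1, b)
      have hcomp : M.Computes i' emptyO A := by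
        intro x
        rw [hi' x]
        obtain ⟨y, hy⟩ := hdom x
        have h1 := hready x y hy
        obtain ⟨v, hv⟩ := Option.isSome_iff_exists.1 h1
        have h2 : (Nat.rfindOpt (fun s => ans K (c, i, 2 * i + 1 + 1, b) x (x + s))).Dom :=
          Nat.rfindOpt_dom.2 ⟨y, v, hv⟩
        obtain ⟨w, hw⟩ := Part.dom_iff_mem.1 h2
        obtain ⟨s, hs⟩ := Nat.rfindOpt_spec hw
        rw [Part.eq_some_iff]
        rw [← hans x s w hs]
        exact hw
      obtain ⟨x, hx, z, hz, hlt⟩ := hIO i' hcomp (max N N')
      obtain ⟨y, hy⟩ := hdom x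
      have hyt := hle x (le_trans (le_max_left _ _) hx) y hy
      obtain ⟨z', hz', hle'⟩ := hcost x (le_trans (le_max_right _ _) hx) (t x) y hyt
        (hready x y hy)
      have hzz : z = z' := Part.mem_unique hz hz'
      have hlt' : g x (t x) < z := hlt
      omega

end Pool.Agent.H696R2.NH
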