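import Pool.Agent.H696R2.NH.Compact

set_option autoImplicit false

namespace Pool.Agent.H696R2.NH

open Pool.Agent.Helper223

/-- Search among the extensions of `ρ` for one which forces a computation of cost at most `s`. -/
theorem exists_search (M : RelBlum) : ∃ K : ℕ × ℕ × ℕ × List Bool → Option (List Bool × ℕ),
    Computable K ∧
    (∀ i x s ρ κ v, K (i, x, s, ρ) = some (κ, v) →
      ρ <+: κ ∧ ∀ X, Ext κ X → v ∈ M.φ i X x) ∧
    (∀ i x s ρ X y, Ext ρ X → y ∈ M.Φ i X x → y ≤ s → ∃ κ v, K (i, x, s, ρ) = some (κ, v)) := by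
  classical
  obtain ⟨δ, hδ, hδ1⟩ := M.dec
  obtain ⟨Uh, hU⟩ := hat M.uniform
  obtain ⟨ap, hap, hap1, hap2⟩ := approx hU.part
  have hval : ∀ X n, (n.unpair.2.unpair.2 ∈ M.Φ n.unpair.1 X n.unpair.2.unpair.1 →
      δ X n = Part.some 1) ∧ (n.unpair.2.unpair.2 ∉ M.Φ n.unpair.1 X n.unpair.2.unpair.1 →
      δ X n = Part.some 0) := by
    intro X n
    have h := hδ1 n.unpair.1 n.unpair.2.unpair.1 n.unpair.2.unpair.2 X
    rwa [Nat.pair_unpair, Nat.pair_unpair] at h
  obtain ⟨u, v, hu, hv, huv⟩ := tt hδ (by
    intro X n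
    by_cases h : n.unpair.2.unpair.2 ∈ M.Φ n.unpair.1 X n.unpair.2.unpair.1
    · rw [(hval X n).1 h]; trivial
    · rw [(hval X n).2 h]; trivial)
  -- correctness of the test
  have hcor : ∀ i x y τ X, u (Nat.pair i (Nat.pair x y)) ≤ τ.length → Ext τ X →
      (v (Nat.pair i (Nat.pair x y)) τ = 1 ↔ y ∈ M.Φ i X x) := by
    intro i x y τ X hlen hX
    have h1 := huv _ _ _ hlen hX
    by_cases h : y ∈ M.Φ i X x
    · rw [(hδ1 i x y X).1 h] at h1
      have h2 : v (Nat.pair i (Nat.pair x y)) τ = 1 := by simpa using h1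
      simp [h, h2]
    · rw [(hδ1 i x y X).2 h] at h1
      have h2 : v (Nat.pair i (Nat.pair x y)) τ = 0 := by simpa using h1
      simp [h, h2]
  let W : ℕ × ℕ × ℕ → ℕ := fun a =>
    maxBelow (fun y => u (Nat.pair a.1 (Nat.pair a.2.1 y))) (a.2.2 + 1)
  have hW : Computable W := by
    refine comp_maxBelow (f := fun (a : ℕ × ℕ × ℕ) y => u (Nat.pair a.1 (Nat.pair a.2.1 y))) ?_ ?_
    · refine hu.comp ((Primrec₂.natPair.to_comp).comp (Computable.fst.comp Computable.fst) ?_)
      exact (Primrec₂.natPair.to_comp).comp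
        (Computable.fst.comp (Computable.snd.comp Computable.fst)) Computable.snd
    · exact Computable.succ.comp (Computable.snd.comp Computable.snd)
  let q : ℕ × ℕ × ℕ → List Bool → Bool := fun a τ =>
    (List.range (a.2.2 + 1)).any (fun y => decide (v (Nat.pair a.1 (Nat.pair a.2.1 y)) τ = 1))
  have hq : Computable₂ q := by
    refine comp_any (f := fun p : (ℕ × ℕ × ℕ) × List Bool => List.range (p.1.2.2 + 1))
      (g := fun p y => decide (v (Nat.pair p.1.1 (Nat.pair p.1.2.1 y)) p.2 = 1)) ?_ ?_
    · exact (Primrec.list_range.to_comp).comp (Computable.succ.comp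
        (Computable.snd.comp (Computable.snd.comp Computable.fst)))
    · refine comp_dec_eq (hv.comp ?_ (Computable.snd.comp Computable.fst)) (Computable.const 1)
      refine (Primrec₂.natPair.to_comp).comp
        (Computable.fst.comp (Computable.fst.comp Computable.fst)) ?_
      exact (Primrec₂.natPair.to_comp).comp
        (Computable.fst.comp (Computable.snd.comp (Computable.fst.comp Computable.fst)))
        Computable.snd
  let fnd : ℕ × ℕ × ℕ × List Bool → Option (List Bool) := fun a =>
    (allLen (W (a.1, a.2.1, a.2.2.1))).findSome? (fun τ =>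
      cond (q (a.1, a.2.1, a.2.2.1) (a.2.2.2 ++ τ)) (some (a.2.2.2 ++ τ)) none)
  have htr : Computable fun a : ℕ × ℕ × ℕ × List Bool => (a.1, a.2.1, a.2.2.1) :=
    Computable.pair Computable.fst (Computable.pair (Computable.fst.comp Computable.snd)
      (Computable.fst.comp (Computable.snd.comp Computable.snd)))
  have hfnd : Computable fnd := by
    refine comp_findSome (f := fun a : ℕ × ℕ × ℕ × List Bool => allLen (W (a.1, a.2.1, a.2.2.1)))
      (g := fun a τ => cond (q (a.1, a.2.1, a.2.2.1) (a.2.2.2 ++ τ)) (some (a.2.2.2 ++ τ)) none)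
      (comp_allLen (hW.comp htr)) ?_
    have happ : Computable fun p : (ℕ × ℕ × ℕ × List Bool) × List Bool => p.1.2.2.2 ++ p.2 :=
      Computable.list_append.comp
        (Computable.snd.comp (Computable.snd.comp (Computable.snd.comp Computable.fst)))
        Computable.snd
    refine Computable.cond ?_ (Computable.option_some.comp happ) (Computable.const none)
    exact hq.comp (htr.comp Computable.fst) happ
  have hfnd1 : ∀ i x s ρ τ, fnd (i, x, s, ρ) = some τ →
      ρ <+: τ ∧ ∃ y ≤ s, ∀ X, Ext τ X → y ∈ M.Φ i X x := by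
    intro i x s ρ τ h
    have h' : (allLen (W (i, x, s))).findSome? (fun τ =>
      cond (q (i, x, s) (ρ ++ τ)) (some (ρ ++ τ)) none) = some τ := h
    obtain ⟨τ', hτ', h2⟩ := List.exists_of_findSome?_eq_some h'
    cases hc : q (i, x, s) (ρ ++ τ') with
    | false => rw [hc] at h2; cases h2
    | true =>
      rw [hc] at h2
      simp only [cond_true, Option.some.injEq] at h2
      subst h2
      refine ⟨List.prefix_append _ _, ?_⟩
      have h3 : (List.range (s + 1)).any
        (fun y => decide (v (Nat.pair i (Nat.pair x y)) (ρ ++ τ') = 1)) = true := hc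
      rw [List.any_eq_true] at h3
      obtain ⟨y, hy, hy2⟩ := h3
      rw [List.mem_range] at hy
      refine ⟨y, by omega, fun X hX => ?_⟩
      refine (hcor i x y _ X ?_ hX).1 (by simpa using hy2)
      have h4 : u (Nat.pair i (Nat.pair x y)) ≤ W (i, x, s) :=
        le_maxBelow (fun y => u (Nat.pair i (Nat.pair x y))) hy
      have h5 := (mem_allLen _ _).1 hτ'
      rw [List.length_append]
      omega
  have hfnd2 : ∀ i x s ρ X y, Ext ρ X → y ∈ M.Φ i X x → y ≤ s → ∃ τ, fnd (i, x, s, ρ) = some τ := by
    intro i x s ρ X y hX hy hys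
    by_contra hne
    have hnone : fnd (i, x, s, ρ) = none := by
      cases h : fnd (i, x, s, ρ) with
      | none => rfl
      | some τ => exact absurd ⟨τ, h⟩ hne
    have h' : (allLen (W (i, x, s))).findSome? (fun τ =>
      cond (q (i, x, s) (ρ ++ τ)) (some (ρ ++ τ)) none) = none := hnone
    rw [List.findSome?_eq_none_iff] at h'
    have hp : ρ <+: pre X (ρ.length + W (i, x, s)) := hX.prefix_pre (by omega)
    obtain ⟨τ', hτ'⟩ := hp
    have hlen : τ'.length = W (i, x, s) := by
      have := congrArg List.length hτ'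
      rw [List.length_append, pre_length] at this
      omega
    have h1 := h' τ' ((mem_allLen _ _).2 hlen)
    have h2 : q (i, x, s) (ρ ++ τ') = true := by
      show (List.range (s + 1)).any
        (fun y => decide (v (Nat.pair i (Nat.pair x y)) (ρ ++ τ') = 1)) = true
      rw [List.any_eq_true]
      refine ⟨y, List.mem_range.2 (by omega), ?_⟩
      rw [decide_eq_true_iff]
      refine (hcor i x y _ X ?_ ?_).2 hy
      · have h4 : u (Nat.pair i (Nat.pair x y)) ≤ W (i, x, s) :=
          le_maxBelow (fun y => u (Nat.pair i (Nat.pair x y))) (by omega : y < s + 1)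
        rw [List.length_append]
        omega
      · rw [hτ']; exact ext_pre _ _
    rw [h2] at h1
    cases h1
  -- search for the computation
  let R : (ℕ × ℕ × ℕ × List Bool) × List Bool → ℕ → Option ℕ := fun p w =>
    ap w.unpair.1 (p.2 ++ List.replicate w.unpair.2 false, Nat.pair p.1.1 p.1.2.1)
  have hR : Computable₂ R := by
    refine hap.comp (comp_unpair1.comp Computable.snd) (Computable.pair ?_ ?_)
    · exact Computable.list_append.comp (Computable.snd.comp Computable.fst)
        (comp_replicate (comp_unpair2.comp Computable.snd))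
    · exact (Primrec₂.natPair.to_comp).comp
        (Computable.fst.comp (Computable.fst.comp Computable.fst))
        (Computable.fst.comp (Computable.snd.comp (Computable.fst.comp Computable.fst)))
  let P : ℕ × ℕ × ℕ × List Bool → ℕ → Bool := fun a w =>
    (Option.casesOn (motive := fun _ => Bool) (fnd a) true (fun τ => (R (a, τ) w).isSome))
  have hP : Computable₂ P := by
    refine Computable.option_casesOn (o := fun p : (ℕ × ℕ × ℕ × List Bool) × ℕ => fnd p.1)
      (f := fun _ => true) (g := fun p τ => (R (p.1, τ) p.2).isSome) (hfnd.comp Computable.fst)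
      (Computable.const true) ?_
    refine (Primrec.option_isSome.to_comp).comp ?_
    exact hR.comp (Computable.pair (Computable.fst.comp Computable.fst) Computable.snd)
      (Computable.snd.comp Computable.fst)
  have H : ∀ a, ∃ w, P a w = true := by
    rintro ⟨i, x, s, ρ⟩
    cases hf : fnd (i, x, s, ρ) with
    | none =>
      refine ⟨0, ?_⟩
      show (Option.casesOn (motive := fun _ => Bool) (fnd (i, x, s, ρ)) true
        (fun τ => (R ((i, x, s, ρ), τ) 0).isSome)) = true
      rw [hf]
    | some τ =>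
      obtain ⟨hp, y, hy, hy2⟩ := hfnd1 i x s ρ τ hf
      have h1 := hy2 (pad τ) (ext_pad τ)
      have h2 : (M.φ i (pad τ) x).Dom := by
        rw [← M.dom]
        exact Part.dom_iff_mem.2 ⟨y, h1⟩
      obtain ⟨z, hz⟩ := Part.dom_iff_mem.1 h2
      have h3 : z ∈ (fun X (n : ℕ) => M.φ n.unpair.1 X n.unpair.2) (pad τ) (Nat.pair i x) := by
        simpa using hz
      obtain ⟨m, hm⟩ := hU.complete _ _ _ h3
      have h4 := hU.mono _ _ _ _ (pre_prefix (pad τ) (Nat.le_add_left m τ.length)) hm
      rw [pre_pad] at h4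
      obtain ⟨t, ht⟩ := (hap2 (τ ++ List.replicate m false, Nat.pair i x) z).1 h4
      refine ⟨Nat.pair t m, ?_⟩
      show (Option.casesOn (motive := fun _ => Bool) (fnd (i, x, s, ρ)) true
        (fun τ => (R ((i, x, s, ρ), τ) (Nat.pair t m)).isSome)) = true
      rw [hf]
      show (R ((i, x, s, ρ), τ) (Nat.pair t m)).isSome = true
      show (ap (Nat.pair t m).unpair.1 (τ ++ List.replicate (Nat.pair t m).unpair.2 false,
        Nat.pair i x)).isSome = true
      rw [Nat.unpair_pair, ht]
      rfl
  have hF : Computable fun a => Nat.find (H a) := comp_find P hP H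
  refine ⟨fun a => (fnd a).bind fun τ => (R (a, τ) (Nat.find (H a))).map fun z =>
    (τ ++ List.replicate (Nat.find (H a)).unpair.2 false, z), ?_, ?_, ?_⟩
  · refine Computable.option_bind hfnd ?_
    refine Computable.option_map (f := fun p : (ℕ × ℕ × ℕ × List Bool) × List Bool =>
      R (p.1, p.2) (Nat.find (H p.1)))
      (g := fun p z => (p.2 ++ List.replicate (Nat.find (H p.1)).unpair.2 false, z)) ?_ ?_
    · exact hR.comp (Computable.pair Computable.fst Computable.snd) (hF.comp Computable.fst)
    · refine Computable.pair ?_ Computable.snd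
      exact Computable.list_append.comp (Computable.snd.comp Computable.fst)
        (comp_replicate (comp_unpair2.comp (hF.comp (Computable.fst.comp Computable.fst))))
  · intro i x s ρ κ z h
    simp only [Option.bind_eq_some_iff, Option.map_eq_some_iff, Prod.mk.injEq] at h
    obtain ⟨τ, hτ, z', hz', rfl, rfl⟩ := h
    obtain ⟨hp, -⟩ := hfnd1 i x s ρ τ hτ
    refine ⟨hp.trans (List.prefix_append _ _), fun X hX => ?_⟩
    have h1 := (hap2 _ _).2 ⟨_, hz'⟩
    have h2 := hU.sound _ X _ _ hX h1
    simpa using h2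
  · intro i x s ρ X y hX hy hys
    obtain ⟨τ, hτ⟩ := hfnd2 i x s ρ X y hX hy hys
    have h1 : P (i, x, s, ρ) (Nat.find (H (i, x, s, ρ))) = true := Nat.find_spec (H (i, x, s, ρ))
    have h2 : (Option.casesOn (motive := fun _ => Bool) (fnd (i, x, s, ρ)) true
        (fun τ => (R ((i, x, s, ρ), τ) (Nat.find (H (i, x, s, ρ)))).isSome)) = true := h1
    rw [hτ] at h2
    obtain ⟨z, hz⟩ := Option.isSome_iff_exists.1 h2
    refine ⟨τ ++ List.replicate (Nat.find (H (i, x, s, ρ))).unpair.2 false, z, ?_⟩
    show ((fnd (i, x, s, ρ)).bind fun τ => (R ((i, x, s, ρ), τ) (Nat.find (H (i, x, s, ρ)))).map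
      fun z => (τ ++ List.replicate (Nat.find (H (i, x, s, ρ))).unpair.2 false, z)) = _
    rw [hτ, Option.bind_some, hz]
    rfl

/-- The test for the empty oracle. -/
theorem comp_cost (M : RelBlum) :
    ∃ d : ℕ × ℕ × ℕ → Bool, Computable d ∧ ∀ i x y, d (i, x, y) = true ↔ y ∈ M.Φ i emptyO x := by
  classical
  obtain ⟨δ, hδ, hδ1⟩ := M.dec
  have hP : Partrec (δ emptyO) := Partrec.nat_iff.2 (hδ.partrec (Computable.const false))
  refine ⟨fun p => decide (p.2.2 ∈ M.Φ p.1 emptyO p.2.1), ?_, ?_⟩
  · have h1 : Partrec fun p : ℕ × ℕ × ℕ =>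
        (δ emptyO (Nat.pair p.1 (Nat.pair p.2.1 p.2.2))).map (fun z => decide (z = 1)) := by
      refine Partrec.map (hP.comp ?_) ?_
      · exact (Primrec₂.natPair.to_comp).comp Computable.fst
          ((Primrec₂.natPair.to_comp).comp (Computable.fst.comp Computable.snd)
            (Computable.snd.comp Computable.snd))
      · exact comp_dec_eq Computable.snd (Computable.const 1)
    refine h1.of_eq fun p => ?_
    obtain ⟨i, x, y⟩ := p
    by_cases h : y ∈ M.Φ i emptyO x
    · rw [(hδ1 i x y emptyO).1 h]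
      simp [h]
    · rw [(hδ1 i x y emptyO).2 h]
      simp [h]
  · intro i x y
    simp

end Pool.Agent.H696R2.NH
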