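import Pool.Agent.H696R2.NH.Hat

set_option autoImplicit false

namespace Pool.Agent.H696R2.NH

open Pool.Agent.Helper223 Nat.Partrec

variable {α β γ σ : Type} [Primcodable α] [Primcodable β] [Primcodable γ] [Primcodable σ]

theorem approx {f : α →. σ} (hf : Partrec f) : ∃ ap : ℕ → α → Option σ, Computable₂ ap ∧
    (∀ s s' a v, s ≤ s' → ap s a = some v → ap s' a = some v) ∧
    (∀ a v, v ∈ f a ↔ ∃ s, ap s a = some v) := by
  obtain ⟨c, hc⟩ := Code.exists_code.1 hf
  have hev : ∀ a, c.eval (Encodable.encode a) = (f a).map Encodable.encode := by
    intro a
    rw [hc]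
    simp
  refine ⟨fun s a => (c.evaln s (Encodable.encode a)).bind
    (fun z => (Encodable.decode z : Option σ)), ?_, ?_, ?_⟩
  · refine Computable.option_bind (f := fun p : ℕ × α => c.evaln p.1 (Encodable.encode p.2))
      (g := fun _ z => (Encodable.decode z : Option σ)) ?_ ?_
    · have h1 : Computable fun p : ℕ × α => (((p.1, c), Encodable.encode p.2) :
          (ℕ × Code) × ℕ) := Computable.pair (Computable.pair Computable.fst
            (Computable.const c)) (Computable.encode.comp Computable.snd)
      exact Code.primrec_evaln.to_comp.comp h1
    · exact Computable.decode.comp Computable.snd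
  · intro s s' a v hs h
    simp only [Option.bind_eq_some_iff] at h ⊢
    obtain ⟨z, hz, h2⟩ := h
    exact ⟨z, Code.evaln_mono hs hz, h2⟩
  · intro a v
    constructor
    · intro h
      have h1 : Encodable.encode v ∈ c.eval (Encodable.encode a) := by
        rw [hev]; exact Part.mem_map _ h
      obtain ⟨s, hs⟩ := Code.evaln_complete.1 h1
      refine ⟨s, ?_⟩
      simp only [Option.bind_eq_some_iff]
      exact ⟨_, hs, Encodable.encodek v⟩
    · rintro ⟨s, hs⟩
      simp only [Option.bind_eq_some_iff] at hs
      obtain ⟨z, hz, h2⟩ := hs
      have h3 := Code.evaln_sound hz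
      rw [hev] at h3
      simp only [Part.mem_map_iff] at h3
      obtain ⟨w, hw, rfl⟩ := h3
      rw [Encodable.encodek] at h2
      cases h2
      exact hw

theorem comp_all {f : α → List β} {g : α → β → Bool} (hf : Computable f) (hg : Computable₂ g) :
    Computable fun a => (f a).all (g a) := by
  have h := comp_foldr (h := fun a (p : β × Bool) => (g a p.1 && p.2)) hf
    (Computable.const true) ?_
  · refine h.of_eq fun a => ?_
    induction f a with
    | nil => rfl
    | cons b l ih => simp [List.foldr_cons, ih]
  · exact (Primrec.and.to_comp).comp (hg.comp Computable.fst (Computable.fst.comp Computable.snd))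
      (Computable.snd.comp Computable.snd)

theorem comp_any {f : α → List β} {g : α → β → Bool} (hf : Computable f) (hg : Computable₂ g) :
    Computable fun a => (f a).any (g a) := by
  have h := comp_foldr (h := fun a (p : β × Bool) => (g a p.1 || p.2)) hf
    (Computable.const false) ?_
  · refine h.of_eq fun a => ?_
    induction f a with
    | nil => rfl
    | cons b l ih => simp [List.foldr_cons, ih]
  · exact (Primrec.or.to_comp).comp (hg.comp Computable.fst (Computable.fst.comp Computable.snd))
      (Computable.snd.comp Computable.snd)

theorem comp_findSome {f : α → List β} {g : α → β → Option γ} (hf : Computable f)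
    (hg : Computable₂ g) : Computable fun a => (f a).findSome? (g a) := by
  have h := comp_foldr (h := fun a (p : β × Option γ) =>
    (Option.casesOn (motive := fun _ => Option γ) (g a p.1) p.2 (fun c => some c))) hf
    (Computable.const none) ?_
  · refine h.of_eq fun a => ?_
    induction f a with
    | nil => rfl
    | cons b l ih =>
      simp only [List.foldr_cons, List.findSome?_cons, ih]
      cases g a b <;> rfl
  · refine Computable.option_casesOn (o := fun p : α × (β × Option γ) => g p.1 p.2.1)
      (f := fun p => p.2.2) (g := fun _ c => some c) ?_ ?_ ?_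
    · exact hg.comp Computable.fst (Computable.fst.comp Computable.snd)
    · exact Computable.snd.comp Computable.snd
    · exact Computable.option_some.comp Computable.snd

theorem comp_take {f : α → List β} {n : α → ℕ} (hf : Computable f) (hn : Computable n) :
    Computable fun a => (f a).take (n a) := by
  have h := comp_foldl (f := fun a => List.range (n a)) (g := fun _ => ([] : List β))
    (h := fun a (p : List β × ℕ) => (Option.casesOn (motive := fun _ => List β) ((f a)[p.2]?)
      p.1 (fun b => p.1 ++ [b]))) ((Primrec.list_range.to_comp).comp hn) (Computable.const _) ?_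
  · refine h.of_eq fun a => ?_
    show (List.range (n a)).foldl (fun s b => (Option.casesOn (motive := fun _ => List β)
      ((f a)[b]?) s (fun c => s ++ [c]))) [] = (f a).take (n a)
    generalize n a = m
    induction m with
    | zero => simp
    | succ m ih =>
      rw [List.range_succ, List.foldl_append, ih]
      simp only [List.foldl_cons, List.foldl_nil]
      rw [List.take_add_one]
      cases (f a)[m]? <;> simp
  · refine Computable.option_casesOn (o := fun p : α × (List β × ℕ) => (f p.1)[p.2.2]?)
      (f := fun p => p.2.1) (g := fun p c => p.2.1 ++ [c]) ?_ ?_ ?_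
    · exact Computable.list_getElem?.comp (hf.comp Computable.fst)
        (Computable.snd.comp Computable.snd)
    · exact Computable.fst.comp Computable.snd
    · exact Computable.list_append.comp
        (Computable.fst.comp (Computable.snd.comp Computable.fst))
        (Computable.list_cons.comp Computable.snd (Computable.const []))

/-- `acc` is a prefix of `ρ` (as a Boolean test) -/
def isPre (acc ρ : List Bool) : Bool := decide (ρ.take acc.length = acc)

theorem isPre_iff (acc ρ : List Bool) : isPre acc ρ = true ↔ acc <+: ρ := by
  unfold isPre
  rw [decide_eq_true_iff, List.prefix_iff_eq_take]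
  exact eq_comm

theorem comp_isPre {f g : α → List Bool} (hf : Computable f) (hg : Computable g) :
    Computable fun a => isPre (f a) (g a) :=
  comp_dec_eq (comp_take hg (Computable.list_length.comp hf)) hf

theorem comp_replicate {n : α → ℕ} (hn : Computable n) :
    Computable fun a => List.replicate (n a) false := by
  have h : Computable fun a => (List.range (n a)).map (fun _ => false) := by
    refine Computable.comp (f := fun l : List ℕ => l.map (fun _ => false)) ?_
      ((Primrec.list_range.to_comp).comp hn)
    exact (Primrec.list_map Primrec.id (Primrec.const false).to₂).to_comp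
  refine h.of_eq fun a => ?_
  simp

/-- all binary strings of length `n` -/
def allLen (n : ℕ) : List (List Bool) :=
  Nat.rec [[]] (fun _ IH => IH.flatMap fun τ => [τ ++ [false], τ ++ [true]]) n

theorem mem_allLen (n : ℕ) (τ : List Bool) : τ ∈ allLen n ↔ τ.length = n := by
  induction n generalizing τ with
  | zero => simp [allLen]
  | succ n ih =>
    have h1 : allLen (n + 1) = (allLen n).flatMap fun τ => [τ ++ [false], τ ++ [true]] := rfl
    rw [h1, List.mem_flatMap]
    constructor
    · rintro ⟨ρ, hρ, h⟩
      rw [ih] at hρ
      simp only [List.mem_cons, List.not_mem_nil, or_false] at h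
      rcases h with rfl | rfl <;> simp [hρ]
    · intro h
      have hne : τ ≠ [] := by
        rintro rfl
        simp at h
      refine ⟨τ.dropLast, ?_, ?_⟩
      · rw [ih]
        simp [h]
      · have h2 := List.dropLast_append_getLast hne
        cases hb : τ.getLast hne with
        | false => rw [hb] at h2; simp [h2]
        | true => rw [hb] at h2; simp [h2]

theorem comp_allLen {n : α → ℕ} (hn : Computable n) : Computable fun a => allLen (n a) := by
  have h : Primrec allLen := by
    refine Primrec.nat_rec' (f := fun n : ℕ => n) (g := fun _ => [[]])
      (h := fun _ (p : ℕ × List (List Bool)) =>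
        p.2.flatMap fun τ => [τ ++ [false], τ ++ [true]]) Primrec.id (Primrec.const _) ?_
    refine Primrec.list_flatMap (Primrec.snd.comp Primrec.snd) ?_
    refine Primrec.list_cons.comp ?_ (Primrec.list_cons.comp ?_ (Primrec.const []))
    · exact Primrec.list_append.comp Primrec.snd (Primrec.const [false])
    · exact Primrec.list_append.comp Primrec.snd (Primrec.const [true])
  exact h.to_comp.comp hn

/-- maximum of the values of `f` below `n` -/
def maxBelow (f : ℕ → ℕ) (n : ℕ) : ℕ := (List.range n).foldl (fun s b => max s (f b)) 0

theorem maxBelow_succ (f : ℕ → ℕ) (n : ℕ) : maxBelow f (n + 1) = max (maxBelow f n) (f n) := by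
  unfold maxBelow
  rw [List.range_succ, List.foldl_append]
  rfl

theorem le_maxBelow (f : ℕ → ℕ) {n i : ℕ} (h : i < n) : f i ≤ maxBelow f n := by
  induction n with
  | zero => omega
  | succ n ih =>
    rw [maxBelow_succ]
    rcases Nat.lt_succ_iff_lt_or_eq.1 h with h | h
    · exact le_trans (ih h) (le_max_left _ _)
    · subst h; exact le_max_right _ _

theorem comp_maxBelow {f : α → ℕ → ℕ} {n : α → ℕ} (hf : Computable₂ f) (hn : Computable n) :
    Computable fun a => maxBelow (f a) (n a) := by
  unfold maxBelow
  refine comp_foldl (f := fun a => List.range (n a)) (g := fun _ => 0)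
    (h := fun a p => max p.1 (f a p.2)) ((Primrec.list_range.to_comp).comp hn)
    (Computable.const _) ?_
  exact (Primrec.nat_max.to_comp).comp (Computable.fst.comp Computable.snd)
    (hf.comp Computable.fst (Computable.snd.comp Computable.snd))

end Pool.Agent.H696R2.NH
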